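import Mathlib
import Pool.Agent.Q8.KS.Setting

set_option autoImplicit false

namespace Pool.Agent.Q8.ZA

open Pool.Agent.Q8.KS

variable {G : Type} [Group G]

/-- An abelian variety `A` over a field `K` with absolute Galois group `G`; the field `K` is
supposed to be so large that all endomorphisms of `A` are defined over `K`. -/
structure AbelianVariety (G : Type) [Group G] where
  /-- the points of `A` over the algebraic closure of `K` -/
  Pt : Type
  [group : AddCommGroup Pt]
  [act : DistribMulAction G Pt]
  /-- the Néron-Severi space `NS(A) ⊗ ℝ` -/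
  NS : Type
  [nsNormed : NormedAddCommGroup NS]
  [nsSpace : NormedSpace ℝ NS]
  [nsFinite : FiniteDimensional ℝ NS]
  /-- the nef cone -/
  Nef : Set NS
  nef_cone : IsCone Nef
  /-- the Néron-Tate height pairing attached to a class `D`, i.e. to the symmetric line bundle of
  class `D` -/
  pairing : NS → Pt →+ Pt →+ ℝ
  /-- the Néron-Tate height attached to a class `D`; it is linear in `D` -/
  hat : NS →ₗ[ℝ] (Pt → ℝ)
  hat_eq : ∀ (D : NS) (x : Pt), hat D x = pairing D x x
  pairing_comm : ∀ (D : NS) (x y : Pt), pairing D x y = pairing D y x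
  hat_galois : ∀ (D : NS) (g : G) (x : Pt), hat D (g • x) = hat D x
  hat_nonneg : ∀ D ∈ Nef, ∀ x : Pt, 0 ≤ hat D x
  /-- the algebraic subgroups of `A` different from `A` -/
  Proper : Set (AddSubgroup Pt)
  /-- for such a subgroup `H`, the pullback `D` of an ample class of `A / H` is nef and not `0`,
  and its Néron-Tate height vanishes on `H` -/
  proper_nef : ∀ H ∈ Proper, ∃ D ∈ Nef, D ≠ 0 ∧ ∀ x ∈ H, hat D x = 0

attribute [instance] AbelianVariety.group AbelianVariety.act AbelianVariety.nsNormed
  AbelianVariety.nsSpace AbelianVariety.nsFinite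

/-- A morphism over `K` from a projective variety `W` to an abelian variety `A` whose image is not
contained in a translate of a proper abelian subvariety. -/
structure GeneratingMap (W : Variety G) (A : AbelianVariety G) where
  /-- the map on points -/
  pt : W.Pt → A.Pt
  pt_smul : ∀ (g : G) (x : W.Pt), pt (g • x) = g • pt x
  /-- the pullback of the symmetric line bundle of class `D` -/
  pic : A.NS →ₗ[ℝ] W.Pic
  /-- the Néron-Tate height is a height for the symmetric line bundle -/
  height_pic : ∀ D : A.NS, W.IsHeight (pic D) (A.hat D ∘ pt)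
  /-- pullbacks of nef classes are nef -/
  nef : ∀ D ∈ A.Nef, W.cls (pic D) ∈ W.Nef
  /-- a nef class which is numerically trivial on the image is trivial, as the image generates -/
  generates : ∀ D ∈ A.Nef, D ≠ 0 → W.cls (pic D) ≠ 0
  /-- the sum over the fibres of a finite map `W → ℙ^m` is a morphism from `ℙ^m` to `A`, hence
  constant -/
  trace : ∀ c : Cover W, ∃ s₀ : A.Pt, ∀ t : c.P, ∑ y ∈ c.fib t, c.mult y • pt y = s₀

/-- The point `γ` is defined over the field `K(t)`. -/
def DefinedOver {P Q : Type} [MulAction G P] [MulAction G Q] (γ : Q) (t : P) : Prop :=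
  ∀ g : G, g • t = t → g • γ = γ

end Pool.Agent.Q8.ZA
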