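import Mathlib
import Pool.Agent.Q8.KS.Core4

set_option autoImplicit false

open Filter Topology

namespace Pool.Agent.Q8.ZA

open Pool.Agent.Q8.KS

variable {G : Type} [Group G]
variable {E : Type} [NormedAddCommGroup E] [NormedSpace ℝ E] [FiniteDimensional ℝ E]

/-- The norm formula, uniformly in a linear family of classes. -/
lemma norm_unif {W : Variety G} (P : E →ₗ[ℝ] W.Pic) (η : E →ₗ[ℝ] (W.Pt → ℝ))
    (hη : ∀ D, W.IsHeight (P D) (η D)) (c : Cover W) : ∃ K : ℝ, 0 < K ∧ ∀ (D : E) (t : c.P),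
      |∑ y ∈ c.fib t, (c.mult y : ℝ) * η D y
        - W.deg (W.cls c.H) (W.cls (P D)) * c.h t| ≤ K * ‖D‖ := by
  let Φ : E →ₗ[ℝ] (c.P → ℝ) :=
    { toFun := fun D t => ∑ y ∈ c.fib t, (c.mult y : ℝ) * η D y
        - W.deg (W.cls c.H) (W.cls (P D)) * c.h t
      map_add' := by
        intro D E'
        ext t
        simp only [map_add, Pi.add_apply]
        rw [show ∑ y ∈ c.fib t, (c.mult y : ℝ) * (η D y + η E' y)
          = ∑ y ∈ c.fib t, (c.mult y : ℝ) * η D y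
            + ∑ y ∈ c.fib t, (c.mult y : ℝ) * η E' y by
          rw [← Finset.sum_add_distrib]
          exact Finset.sum_congr rfl fun y _ => by ring]
        ring
      map_smul' := by
        intro r D
        ext t
        simp only [map_smul, Pi.smul_apply, smul_eq_mul, RingHom.id_apply]
        rw [show ∑ y ∈ c.fib t, (c.mult y : ℝ) * (r * η D y)
          = r * ∑ y ∈ c.fib t, (c.mult y : ℝ) * η D y by
          rw [Finset.mul_sum]
          exact Finset.sum_congr rfl fun y _ => by ring]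
        ring }
  obtain ⟨K, hK, h⟩ := lin_err Φ (fun _ => 1) (fun _ => zero_le_one) (fun D => by
    obtain ⟨C, hC⟩ := c.norm (P D) (η D) (hη D)
    refine ⟨C, fun t => ?_⟩
    rw [mul_one]
    exact hC t)
  refine ⟨K, hK, fun D t => ?_⟩
  have := h D t
  rw [mul_one] at this
  exact this

/-- The uniform bound for a linear family of heights. -/
lemma lift_bound {W : Variety G} (P : E →ₗ[ℝ] W.Pic) (η : E →ₗ[ℝ] (W.Pt → ℝ))
    (hη : ∀ D, W.IsHeight (P D) (η D)) {A : W.Pic} (hA : W.IsAmple A) {u : W.Pt → ℝ}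
    (hu : W.IsHeight A u) :
    ∃ K : ℝ, 0 < K ∧ ∀ (D : E) (y : W.Pt), |η D y| ≤ K * ‖D‖ * max 1 (u y) :=
  lin_err η (fun y => max 1 (u y)) (fun y => le_trans zero_le_one (le_max_left _ _))
    (fun D => height_bound W hA hu (hη D))

/-- A cone of classes whose members are nef and not numerically trivial on `W`. -/
lemma cone_le_deg {W : Variety G} {S : Set E} (hS : IsCone S) (P : E →ₗ[ℝ] W.Pic)
    (hnef : ∀ D ∈ S, W.cls (P D) ∈ W.Nef) (hpos : ∀ D ∈ S, D ≠ 0 → W.cls (P D) ≠ 0)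
    {H : W.NS} (hH : H ∈ interior W.Nef) :
    ∃ M : ℝ, 0 < M ∧ ∀ D ∈ S, ‖D‖ ≤ M * W.deg H (W.cls (P D)) :=
  norm_le hS ((W.deg H) ∘ₗ W.cls ∘ₗ P) fun D hD h0 =>
    W.int_pos H hH _ (hnef D hD) (hpos D hD h0)

/-- **Nef classes at points of large relative degree.** -/
theorem large_rel {W : Variety G} {S : Set E} (hS : IsCone S) (P : E →ₗ[ℝ] W.Pic)
    (η : E →ₗ[ℝ] (W.Pt → ℝ)) (hη : ∀ D, W.IsHeight (P D) (η D))
    (hinv : ∀ (D : E) (g : G) (x : W.Pt), η D (g • x) = η D x)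
    (hnef : ∀ D ∈ S, W.cls (P D) ∈ W.Nef) (hpos : ∀ D ∈ S, D ≠ 0 → W.cls (P D) ≠ 0)
    {H₀ : W.Pic} (hH₀ : W.IsAmple H₀) :
    ∃ κ : ℝ, 0 < κ ∧ ∀ c : Cover W, (∃ t : ℝ, 0 < t ∧ W.cls c.H = t • W.cls H₀) →
      ∃ C : ℝ, 0 < C ∧ ∀ w : W.Pt, (1 - κ) * c.N < c.relDeg w → C ≤ c.h (c.φ w) →
        ∀ D ∈ S, W.deg (W.cls c.H) (W.cls (P D)) / c.N * (c.h (c.φ w) / 4) ≤ η D w := by
  classical
  obtain ⟨u₀, hu₀⟩ := Submodule.mkQ_surjective (bdd W.Pt) (W.height H₀)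
  have hu0 : W.IsHeight H₀ u₀ := hu₀.symm
  obtain ⟨K, hK, hKb⟩ := lift_bound P η hη hH₀ hu0
  obtain ⟨M, hM, hMb⟩ := cone_le_deg hS P hnef hpos hH₀
  obtain ⟨v₀, hv₀⟩ : ∃ v₀ : ℝ, v₀ = W.deg (W.cls H₀) (W.cls H₀) := ⟨_, rfl⟩
  refine ⟨(4 * K * M * (|v₀| + 1))⁻¹, by positivity, ?_⟩
  obtain ⟨κ, hκ⟩ : ∃ κ : ℝ, κ = (4 * K * M * (|v₀| + 1))⁻¹ := ⟨_, rfl⟩
  rw [← hκ]
  have hκ0 : 0 < κ := by rw [hκ]; positivity
  rintro c ⟨t, ht, hct⟩
  have hN : (0 : ℝ) < c.N := by exact_mod_cast c.N_pos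
  have hNt : (c.N : ℝ) = t ^ W.dimPred * t * v₀ := by
    rw [← c.deg_H, hct, deg_smul, map_smul, smul_eq_mul, hv₀]
    ring
  have htn : 0 < t ^ W.dimPred := pow_pos ht _
  have hv0 : 0 < v₀ := by
    have h1 : 0 < t ^ W.dimPred * t * v₀ := by rw [← hNt]; exact hN
    exact pos_of_mul_pos_right h1 (by positivity)
  -- comparison of the two heights on `W`
  have hcmp : W.cls ((2 : ℝ) • c.H - t • H₀) ∈ interior W.Nef := by
    have h1 : W.cls ((2 : ℝ) • c.H - t • H₀) = t • W.cls H₀ := by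
      rw [map_sub, map_smul, map_smul, hct, two_smul]
      abel
    rw [h1]
    exact ample_smul W.nef_cone hH₀ ht
  obtain ⟨c2, hc2⟩ := W.ample_height _ hcmp _
    (height_sub W (height_smul W 2 c.height_H) (height_smul W t hu0))
  obtain ⟨K2, hK2, hnorm⟩ := norm_unif P η hη c
  -- the threshold
  obtain ⟨c3, hc3⟩ : ∃ c3 : ℝ, c3 = |c2| + t := ⟨_, rfl⟩
  have hc3' : 0 < c3 := by rw [hc3]; positivity
  obtain ⟨E, hE⟩ : ∃ E : ℝ, E = K2 * M / t ^ W.dimPred * 1 + c3 := ⟨_, rfl⟩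
  refine ⟨4 * (K2 * M * (t ^ W.dimPred)⁻¹ + c3) * 1 * (1 + (t ^ W.dimPred)⁻¹ * 0), ?_, ?_⟩
  · positivity
  intro w hw hhw D hD
  rw [mul_one, mul_zero, add_zero, mul_one] at hhw
  obtain ⟨h, hh⟩ : ∃ h : ℝ, h = c.h (c.φ w) := ⟨_, rfl⟩
  rw [← hh] at hhw ⊢
  have hh0 : 0 < h := lt_of_lt_of_le (by positivity) hhw
  obtain ⟨L, hL⟩ : ∃ L : ℝ, L = W.deg (W.cls H₀) (W.cls (P D)) := ⟨_, rfl⟩
  have hDL : ‖D‖ ≤ M * L := by rw [hL]; exact hMb D hD
  have hL0 : 0 ≤ L := by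
    have := (norm_nonneg D).trans hDL
    exact nonneg_of_mul_nonneg_right this hM
  have hdegc : W.deg (W.cls c.H) (W.cls (P D)) = t ^ W.dimPred * L := by
    rw [hct, deg_smul, hL]
  -- the height over the fibre
  have h1 := hnorm D (c.φ w)
  rw [hdegc, ← hh, sum_split, sum_conj c w (η D) (fun g y => hinv D g y)] at h1
  obtain ⟨e, he⟩ : ∃ e : ℝ, e = ∑ y ∈ conj c w, (c.mult y : ℝ) := ⟨_, rfl⟩
  obtain ⟨R, hR⟩ : ∃ R : ℝ, R = ∑ y ∈ c.fib (c.φ w) \ conj c w, (c.mult y : ℝ) * η D y :=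
    ⟨_, rfl⟩
  rw [← he, ← hR] at h1
  have h2 := sum_split_one c w
  rw [← he] at h2
  have h3 := card_le_mult c w
  rw [← he] at h3
  have he1 : 1 ≤ e := by
    have h4 : (1 : ℝ) ≤ c.relDeg w := by
      rw [relDeg_eq]
      exact_mod_cast Finset.card_pos.2 ⟨w, self_mem_conj c w⟩
    linarith
  have hrest0 : 0 ≤ ∑ y ∈ c.fib (c.φ w) \ conj c w, (c.mult y : ℝ) :=
    Finset.sum_nonneg fun y _ => Nat.cast_nonneg _
  have heN : e ≤ c.N := by linarith
  have hrest : c.N - e ≤ κ * c.N := by nlinarith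
  -- the bound for the other points
  have hpt : ∀ y, c.φ y = c.φ w → η D y ≤ K * (M * L) * ((2 * h + c3) / t) := by
    intro y hy
    have h5 := (le_abs_self _).trans (hKb D y)
    have h6 : max 1 (u₀ y) ≤ (2 * h + c3) / t := by
      rw [le_div_iff₀ ht]
      have h7 := hc2 y
      simp only [Pi.sub_apply, Pi.smul_apply, smul_eq_mul, Function.comp_apply] at h7
      rw [hy, ← hh] at h7
      have h8 := neg_abs_le c2
      rcases max_cases 1 (u₀ y) with ⟨h9, _⟩ | ⟨h9, _⟩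
      · rw [h9, hc3]
        have := abs_nonneg c2
        linarith
      · rw [h9, hc3]
        linarith
    have h9 : (0 : ℝ) ≤ max 1 (u₀ y) := le_trans zero_le_one (le_max_left _ _)
    calc η D y ≤ K * ‖D‖ * max 1 (u₀ y) := h5
      _ ≤ K * (M * L) * max 1 (u₀ y) :=
          mul_le_mul_of_nonneg_right (mul_le_mul_of_nonneg_left hDL hK.le) h9
      _ ≤ K * (M * L) * ((2 * h + c3) / t) := mul_le_mul_of_nonneg_left h6 (by positivity)
  have hRb : R ≤ (c.N - e) * (K * (M * L) * ((2 * h + c3) / t)) := by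
    have h5 : R ≤ ∑ y ∈ c.fib (c.φ w) \ conj c w,
        (c.mult y : ℝ) * (K * (M * L) * ((2 * h + c3) / t)) := by
      rw [hR]
      refine Finset.sum_le_sum fun y hy => ?_
      refine mul_le_mul_of_nonneg_left (hpt y ?_) (Nat.cast_nonneg _)
      exact (c.mem_fib _ _).1 (Finset.mem_sdiff.1 hy).1
    rw [← Finset.sum_mul] at h5
    have h6 : ∑ y ∈ c.fib (c.φ w) \ conj c w, (c.mult y : ℝ) = c.N - e := by linarith
    rwa [h6] at h5
  have hq : 0 ≤ K * (M * L) * ((2 * h + c3) / t) := by positivity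
  have hRb2 : R ≤ κ * c.N * (K * (M * L) * ((2 * h + c3) / t)) :=
    hRb.trans (mul_le_mul_of_nonneg_right hrest hq)
  have hRb3 : κ * c.N * (K * (M * L) * ((2 * h + c3) / t))
      ≤ t ^ W.dimPred * L * ((2 * h + c3) / 4) := by
    have h5 : κ * (4 * K * M * (|v₀| + 1)) = 1 := by
      rw [hκ]
      exact inv_mul_cancel₀ (by positivity)
    have h6 : κ * (K * M * v₀) ≤ 1 / 4 := by
      have h7 : v₀ ≤ |v₀| + 1 := by linarith [le_abs_self v₀]
      have h8 : κ * (K * M * v₀) ≤ κ * (K * M * (|v₀| + 1)) :=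
        mul_le_mul_of_nonneg_left (mul_le_mul_of_nonneg_left h7 (by positivity)) hκ0.le
      linarith
    have h9 : κ * c.N * (K * (M * L) * ((2 * h + c3) / t))
        = (κ * (K * M * v₀)) * (t ^ W.dimPred * L * (2 * h + c3)) := by
      rw [hNt]
      field_simp
    rw [h9]
    calc (κ * (K * M * v₀)) * (t ^ W.dimPred * L * (2 * h + c3))
        ≤ (1 / 4) * (t ^ W.dimPred * L * (2 * h + c3)) :=
          mul_le_mul_of_nonneg_right h6 (by positivity)
      _ = _ := by ring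
  have h10 := (abs_le.1 h1).1
  have h11 : K2 * ‖D‖ ≤ K2 * (M * L) := mul_le_mul_of_nonneg_left hDL hK2.le
  -- e * η ≥ t^n L h / 4
  have h12 : t ^ W.dimPred * L * (h / 4) ≤ e * η D w := by
    have h13 : t ^ W.dimPred * L * h - K2 * (M * L) - t ^ W.dimPred * L * ((2 * h + c3) / 4)
        ≤ e * η D w := by linarith
    have h14 : K2 * (M * L) + t ^ W.dimPred * L * (c3 / 4) ≤ t ^ W.dimPred * L * (h / 4) := by
      have h15 : K2 * M * (t ^ W.dimPred)⁻¹ + c3 / 4 ≤ h / 4 := by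
        have : 0 ≤ K2 * M * (t ^ W.dimPred)⁻¹ := by positivity
        linarith
      have h16 := mul_le_mul_of_nonneg_left h15 (by positivity : 0 ≤ t ^ W.dimPred * L)
      have h17 : t ^ W.dimPred * L * (K2 * M * (t ^ W.dimPred)⁻¹ + c3 / 4)
          = K2 * (M * L) + t ^ W.dimPred * L * (c3 / 4) := by
        field_simp
      rwa [h17] at h16
    nlinarith
  rw [hdegc, div_mul_eq_mul_div, div_le_iff₀ hN]
  have h18 : 0 ≤ t ^ W.dimPred * L * (h / 4) := by positivity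
  have h19 : 0 ≤ η D w := by
    by_contra hneg
    have : e * η D w < 0 := mul_neg_of_pos_of_neg (by linarith) (not_le.1 hneg)
    linarith
  calc t ^ W.dimPred * L * (h / 4) ≤ e * η D w := h12
    _ ≤ c.N * η D w := mul_le_mul_of_nonneg_right heN h19
    _ = η D w * c.N := by ring

end Pool.Agent.Q8.ZA
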