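import Mathlib
import Pool.Agent.Q8.ZA.Setting
import Pool.Agent.Q8.ZA.Fib

set_option autoImplicit false

namespace Pool.Agent.Q8.ZA

open Pool.Agent.Q8.KS

variable {G : Type} [Group G]

/-- The finiteness part, for any bad set. -/
lemma finite_of_height {W : Variety G} (c : Cover W) (bad : Set W.Pt) (C : ℝ)
    (h : ∀ w ∈ bad, c.h (c.φ w) < C) (e : ℕ) :
    {w : W.Pt | w ∈ bad ∧ (MulAction.orbit G (c.φ w)).ncard ≤ e}.Finite := by
  have hfin := c.northcott e C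
  have hfin2 : (⋃ t ∈ {t : c.P | (MulAction.orbit G t).ncard ≤ e ∧ c.h t ≤ C},
      (c.fib t : Set W.Pt)).Finite := hfin.biUnion fun t _ => (c.fib t).finite_toSet
  refine hfin2.subset ?_
  rintro w ⟨hw1, hw2⟩
  refine Set.mem_biUnion (x := c.φ w) ⟨hw2, (h w hw1).le⟩ ?_
  rw [Finset.mem_coe, c.mem_fib]

/-- **Points of large relative degree on subvarieties of abelian varieties.** -/
theorem subgroups {W : Variety G} {A : AbelianVariety G} (j : GeneratingMap W A) {H₀ : W.Pic}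
    (hH₀ : W.IsAmple H₀) :
    ∃ κ : ℝ, 0 < κ ∧ ∀ c : Cover W, (∃ t : ℝ, 0 < t ∧ W.cls c.H = t • W.cls H₀) →
      ∃ C : ℝ, 0 < C ∧
        (∀ w : W.Pt, (1 - κ) * c.N < c.relDeg w → C ≤ c.h (c.φ w) →
          (∀ D ∈ A.Nef, W.deg (W.cls c.H) (W.cls (j.pic D)) / c.N * (c.h (c.φ w) / 4)
            ≤ A.hat D (j.pt w)) ∧
          ∀ H ∈ A.Proper, j.pt w ∉ H) ∧
        ∀ e : ℕ, {w : W.Pt | ((1 - κ) * c.N < c.relDeg w ∧ ∃ H ∈ A.Proper, j.pt w ∈ H) ∧
          (MulAction.orbit G (c.φ w)).ncard ≤ e}.Finite := by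
  obtain ⟨κ, hκ, h⟩ := large_rel A.nef_cone j.pic ((LinearMap.funLeft ℝ ℝ j.pt) ∘ₗ A.hat)
    j.height_pic (fun D g x => by
      show A.hat D (j.pt (g • x)) = A.hat D (j.pt x)
      rw [j.pt_smul, A.hat_galois]) j.nef j.generates hH₀
  refine ⟨κ, hκ, fun c hc => ?_⟩
  obtain ⟨C, hC, hb⟩ := h c hc
  have hN : (0 : ℝ) < c.N := by exact_mod_cast c.N_pos
  have key : ∀ w : W.Pt, (1 - κ) * c.N < c.relDeg w → C ≤ c.h (c.φ w) →
      (∀ D ∈ A.Nef, W.deg (W.cls c.H) (W.cls (j.pic D)) / c.N * (c.h (c.φ w) / 4)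
        ≤ A.hat D (j.pt w)) ∧ ∀ H ∈ A.Proper, j.pt w ∉ H := by
    intro w hw hhw
    refine ⟨fun D hD => hb w hw hhw D hD, fun H hH hmem => ?_⟩
    obtain ⟨D, hD, hD0, hvan⟩ := A.proper_nef H hH
    have h1 : W.deg (W.cls c.H) (W.cls (j.pic D)) / c.N * (c.h (c.φ w) / 4)
        ≤ A.hat D (j.pt w) := hb w hw hhw D hD
    rw [hvan _ hmem] at h1
    have h2 : 0 < W.deg (W.cls c.H) (W.cls (j.pic D)) :=
      W.int_pos _ c.ample _ (j.nef D hD) (j.generates D hD hD0)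
    have h3 : 0 < c.h (c.φ w) := lt_of_lt_of_le hC hhw
    have h4 : 0 < W.deg (W.cls c.H) (W.cls (j.pic D)) / c.N * (c.h (c.φ w) / 4) := by positivity
    linarith
  refine ⟨C, hC, key, fun e => ?_⟩
  refine finite_of_height c {w | (1 - κ) * c.N < c.relDeg w ∧ ∃ H ∈ A.Proper, j.pt w ∈ H} C
    ?_ e
  rintro w ⟨hw, H, hH, hmem⟩
  by_contra hlt
  exact (key w hw (not_lt.1 hlt)).2 H hH hmem

/-- **Full points and cosets.** -/
theorem cosets {W : Variety G} {A : AbelianVariety G} (j : GeneratingMap W A) (c : Cover W) :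
    ∃ C : ℝ, 0 < C ∧
      (∀ w : W.Pt, c.relDeg w = c.N → C ≤ c.h (c.φ w) →
        ∀ γ : A.Pt, DefinedOver (G := G) γ (c.φ w) →
          (∀ D ∈ A.Nef, W.deg (W.cls c.H) (W.cls (j.pic D)) / c.N * (c.h (c.φ w) / 2)
            ≤ A.hat D (j.pt w - γ)) ∧
          ∀ H ∈ A.Proper, j.pt w - γ ∉ H) ∧
      ∀ e : ℕ, {w : W.Pt | (c.relDeg w = c.N ∧ ∃ γ : A.Pt, DefinedOver (G := G) γ (c.φ w) ∧
        ∃ H ∈ A.Proper, j.pt w - γ ∈ H) ∧ (MulAction.orbit G (c.φ w)).ncard ≤ e}.Finite := by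
  classical
  have hN : (0 : ℝ) < c.N := by exact_mod_cast c.N_pos
  obtain ⟨s₀, hs₀⟩ := j.trace c
  obtain ⟨K, hK, hnorm⟩ := norm_unif j.pic ((LinearMap.funLeft ℝ ℝ j.pt) ∘ₗ A.hat) j.height_pic c
  obtain ⟨M, hM, hMb⟩ := cone_le_deg A.nef_cone j.pic j.nef j.generates c.ample
  obtain ⟨K2, hK2, hs⟩ := lin_err (E := A.NS) (X := Unit)
    ((LinearMap.funLeft ℝ ℝ (fun _ : Unit => s₀)) ∘ₗ A.hat) (fun _ => 1) (fun _ => zero_le_one)
    (fun D => ⟨|A.hat D s₀|, fun _ => by rw [mul_one]; exact le_rfl⟩)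
  have hs' : ∀ D, |A.hat D s₀| ≤ K2 * ‖D‖ := by
    intro D
    have := hs D ()
    rwa [mul_one] at this
  obtain ⟨C, hCdef⟩ : ∃ C : ℝ, C = 2 * (K + K2) * M := ⟨_, rfl⟩
  have hC : 0 < C := by rw [hCdef]; positivity
  have key : ∀ w : W.Pt, c.relDeg w = c.N → C ≤ c.h (c.φ w) →
      ∀ γ : A.Pt, DefinedOver (G := G) γ (c.φ w) →
        (∀ D ∈ A.Nef, W.deg (W.cls c.H) (W.cls (j.pic D)) / c.N * (c.h (c.φ w) / 2)
          ≤ A.hat D (j.pt w - γ)) ∧ ∀ H ∈ A.Proper, j.pt w - γ ∉ H := by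
    intro w hw hhw γ hγ
    obtain ⟨h, hh⟩ : ∃ h : ℝ, h = c.h (c.φ w) := ⟨_, rfl⟩
    rw [← hh] at hhw ⊢
    have hh0 : 0 < h := lt_of_lt_of_le hC hhw
    have hmain : ∀ D ∈ A.Nef, W.deg (W.cls c.H) (W.cls (j.pic D)) / c.N * (h / 2)
        ≤ A.hat D (j.pt w - γ) := by
      intro D hD
      -- the sum over the fibre of the heights of `y - γ`
      have h1 : ∑ y ∈ c.fib (c.φ w), (c.mult y : ℝ) * A.hat D (j.pt y - γ)
          = c.N * A.hat D (j.pt w - γ) := by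
        have h2 := sum_split_one c w
        have h3 := card_le_mult c w
        rw [hw] at h3
        have h4 : 0 ≤ ∑ y ∈ c.fib (c.φ w) \ conj c w, (c.mult y : ℝ) :=
          Finset.sum_nonneg fun y _ => Nat.cast_nonneg _
        have h5 : ∑ y ∈ conj c w, (c.mult y : ℝ) = c.N := by linarith
        have h6 : c.fib (c.φ w) \ conj c w = ∅ := by
          by_contra hne
          obtain ⟨y, hy⟩ := Finset.nonempty_iff_ne_empty.2 hne
          have h6 : 0 < ∑ y ∈ c.fib (c.φ w) \ conj c w, (c.mult y : ℝ) :=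
            Finset.sum_pos (fun y _ => by exact_mod_cast c.mult_pos y) ⟨y, hy⟩
          linarith
        rw [sum_split c w (fun y => A.hat D (j.pt y - γ)), h6, Finset.sum_empty, add_zero, ← h5,
          Finset.sum_mul]
        refine Finset.sum_congr rfl fun y hy => ?_
        rw [mem_conj] at hy
        obtain ⟨hy1, g, hg⟩ := hy
        have hgy : g • w = y := hg
        have hgt : g • c.φ w = c.φ w := by rw [← c.φ_smul, hgy, hy1]
        have h7 : j.pt y - γ = g • (j.pt w - γ) := by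
          rw [smul_sub, ← j.pt_smul, hgy, hγ g hgt]
        rw [h7, A.hat_galois]
      -- expansion
      have h2 : ∑ y ∈ c.fib (c.φ w), (c.mult y : ℝ) * A.hat D (j.pt y - γ)
          = ∑ y ∈ c.fib (c.φ w), (c.mult y : ℝ) * A.hat D (j.pt y)
            - 2 * A.pairing D s₀ γ + c.N * A.hat D γ := by
        have h3 : ∀ y, (c.mult y : ℝ) * A.hat D (j.pt y - γ)
            = (c.mult y : ℝ) * A.hat D (j.pt y) - 2 * ((c.mult y : ℝ) * A.pairing D (j.pt y) γ)
              + (c.mult y : ℝ) * A.hat D γ := by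
          intro y
          rw [A.hat_eq, A.hat_eq, A.hat_eq]
          simp only [map_sub, AddMonoidHom.sub_apply]
          rw [A.pairing_comm D γ (j.pt y)]
          ring
        rw [Finset.sum_congr rfl fun y _ => h3 y, Finset.sum_add_distrib, Finset.sum_sub_distrib,
          ← Finset.mul_sum, ← Finset.sum_mul]
        have h4 : ∑ y ∈ c.fib (c.φ w), (c.mult y : ℝ) * A.pairing D (j.pt y) γ
            = A.pairing D s₀ γ := by
          rw [← hs₀ (c.φ w), map_sum, AddMonoidHom.finsetSum_apply]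
          refine Finset.sum_congr rfl fun y _ => ?_
          rw [map_nsmul, AddMonoidHom.nsmul_apply, nsmul_eq_mul]
        have h5 : ∑ y ∈ c.fib (c.φ w), (c.mult y : ℝ) = c.N := by
          exact_mod_cast c.sum_mult (c.φ w)
        rw [h4, h5]
      -- positivity
      have h3 : 0 ≤ A.hat D (c.N • γ - s₀) := A.hat_nonneg D hD _
      have h4 : A.hat D (c.N • γ - s₀) = c.N * (c.N * A.hat D γ) - 2 * (c.N * A.pairing D s₀ γ)
          + A.hat D s₀ := by
        rw [A.hat_eq, A.hat_eq, A.hat_eq]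
        simp only [map_sub, map_nsmul, AddMonoidHom.sub_apply, AddMonoidHom.nsmul_apply,
          nsmul_eq_mul]
        rw [A.pairing_comm D γ s₀]
        ring
      have h5 := (abs_le.1 (hnorm D (c.φ w))).1
      have h5' : -(K * ‖D‖) ≤ ∑ y ∈ c.fib (c.φ w), (c.mult y : ℝ) * A.hat D (j.pt y)
          - W.deg (W.cls c.H) (W.cls (j.pic D)) * h := by
        rw [hh]
        exact h5
      have h6 := (abs_le.1 (hs' D)).2
      have h7 := hMb D hD
      obtain ⟨dg, hdg⟩ : ∃ dg : ℝ, dg = W.deg (W.cls c.H) (W.cls (j.pic D)) := ⟨_, rfl⟩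
      rw [← hdg] at h5' h7 ⊢
      have hdg0 : 0 ≤ dg := by
        have := (norm_nonneg D).trans h7
        exact nonneg_of_mul_nonneg_right this hM
      obtain ⟨S1, hS1⟩ : ∃ S1 : ℝ, S1 = ∑ y ∈ c.fib (c.φ w), (c.mult y : ℝ) * A.hat D (j.pt y) :=
        ⟨_, rfl⟩
      rw [← hS1] at h2 h5'
      rw [h1] at h2
      have hN1 : (1 : ℝ) ≤ c.N := by exact_mod_cast c.N_pos
      -- N * (N γ̂ - 2⟨s₀,γ⟩) ≥ - ŝ₀
      have h8 : -(A.hat D s₀) ≤ c.N * (c.N * A.hat D γ - 2 * A.pairing D s₀ γ) := by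
        rw [h4] at h3
        linarith
      have hs0 : 0 ≤ A.hat D s₀ := A.hat_nonneg D hD _
      have h9 : -(A.hat D s₀) ≤ c.N * A.hat D γ - 2 * A.pairing D s₀ γ := by
        by_contra hlt
        have hlt := not_le.1 hlt
        have h10 : c.N * (c.N * A.hat D γ - 2 * A.pairing D s₀ γ)
            < c.N * -(A.hat D s₀) := mul_lt_mul_of_pos_left hlt hN
        have h11 : (c.N : ℝ) * -(A.hat D s₀) ≤ -(A.hat D s₀) := by nlinarith
        linarith
      have h10 : dg * h - (K + K2) * ‖D‖ ≤ c.N * A.hat D (j.pt w - γ) := by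
        rw [h2]
        linarith
      have h11 : (K + K2) * ‖D‖ ≤ dg * (h / 2) := by
        calc (K + K2) * ‖D‖ ≤ (K + K2) * (M * dg) :=
              mul_le_mul_of_nonneg_left h7 (by positivity)
          _ = dg * (C / 2) := by rw [hCdef]; ring
          _ ≤ dg * (h / 2) := mul_le_mul_of_nonneg_left (by linarith) hdg0
      rw [div_mul_eq_mul_div, div_le_iff₀ hN]
      linarith
    refine ⟨hmain, fun H hH hmem => ?_⟩
    obtain ⟨D, hD, hD0, hvan⟩ := A.proper_nef H hH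
    have h1 := hmain D hD
    rw [hvan _ hmem] at h1
    have h2 : 0 < W.deg (W.cls c.H) (W.cls (j.pic D)) :=
      W.int_pos _ c.ample _ (j.nef D hD) (j.generates D hD hD0)
    have h4 : 0 < W.deg (W.cls c.H) (W.cls (j.pic D)) / c.N * (h / 2) := by positivity
    linarith
  refine ⟨C, hC, key, fun e => ?_⟩
  refine finite_of_height c {w | c.relDeg w = c.N ∧ ∃ γ : A.Pt, DefinedOver (G := G) γ (c.φ w) ∧
        ∃ H ∈ A.Proper, j.pt w - γ ∈ H} C ?_ e
  rintro w ⟨hw, γ, hγ, H, hH, hmem⟩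
  by_contra hlt
  exact (key w hw (not_lt.1 hlt) γ hγ).2 H hH hmem

end Pool.Agent.Q8.ZA
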