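import Mathlib
import Pool.Agent.Q8.ZA.Setting

/-!
The dispersion of a finite family of points of an abelian variety with constant sum.
-/

set_option autoImplicit false

namespace Pool.Agent.Q8.ZA

variable {G : Type} [Group G]

lemma hat_sub (A : AbelianVariety G) (D : A.NS) (x y : A.Pt) :
    A.hat D (x - y) = A.hat D x - 2 * A.pairing D x y + A.hat D y := by
  rw [A.hat_eq, A.hat_eq, A.hat_eq]
  simp only [map_sub, AddMonoidHom.sub_apply]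
  rw [A.pairing_comm D y x]
  ring

lemma hat_add_nsmul (A : AbelianVariety G) (D : A.NS) (x y : A.Pt) (k : ℕ) :
    A.hat D (x + k • y) = A.hat D x + 2 * (k * A.pairing D x y) + k * (k * A.hat D y) := by
  rw [A.hat_eq, A.hat_eq, A.hat_eq]
  simp only [map_add, map_nsmul, AddMonoidHom.add_apply, AddMonoidHom.nsmul_apply, nsmul_eq_mul]
  rw [A.pairing_comm D y x]
  ring

lemma hat_sum (A : AbelianVariety G) (D : A.NS) {ι : Type} (I : Finset ι) (a : ι → ℕ)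
    (x : ι → A.Pt) : A.hat D (∑ i ∈ I, a i • x i)
      = ∑ i ∈ I, ∑ j ∈ I, (a i : ℝ) * ((a j : ℝ) * A.pairing D (x i) (x j)) := by
  rw [A.hat_eq, map_sum]
  refine Finset.sum_congr rfl fun i _ => ?_
  rw [map_nsmul, nsmul_eq_mul, A.pairing_comm, map_sum, Finset.mul_sum]
  refine Finset.sum_congr rfl fun j _ => ?_
  rw [map_nsmul, nsmul_eq_mul]

/-- The variance identity. -/
lemma variance (A : AbelianVariety G) (D : A.NS) {ι : Type} (I : Finset ι) (a : ι → ℕ)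
    (x : ι → A.Pt) : ∑ i ∈ I, ∑ j ∈ I, (a i : ℝ) * ((a j : ℝ) * A.hat D (x i - x j))
      = 2 * ((∑ i ∈ I, (a i : ℝ)) * ∑ i ∈ I, (a i : ℝ) * A.hat D (x i))
        - 2 * A.hat D (∑ i ∈ I, a i • x i) := by
  have h1 : ∀ i j, (a i : ℝ) * ((a j : ℝ) * A.hat D (x i - x j))
      = (a j : ℝ) * ((a i : ℝ) * A.hat D (x i)) + (a i : ℝ) * ((a j : ℝ) * A.hat D (x j))
        - 2 * ((a i : ℝ) * ((a j : ℝ) * A.pairing D (x i) (x j))) := by
    intro i j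
    rw [hat_sub]
    ring
  have h2 : ∑ i ∈ I, ∑ j ∈ I, (a j : ℝ) * ((a i : ℝ) * A.hat D (x i))
      = (∑ i ∈ I, (a i : ℝ)) * ∑ i ∈ I, (a i : ℝ) * A.hat D (x i) := by
    rw [Finset.sum_comm, Finset.sum_mul]
    exact Finset.sum_congr rfl fun i _ => by rw [← Finset.mul_sum]
  have h3 : ∑ i ∈ I, ∑ j ∈ I, (a i : ℝ) * ((a j : ℝ) * A.hat D (x j))
      = (∑ i ∈ I, (a i : ℝ)) * ∑ i ∈ I, (a i : ℝ) * A.hat D (x i) := by
    rw [Finset.sum_mul]
    exact Finset.sum_congr rfl fun i _ => by rw [← Finset.mul_sum]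
  simp only [h1, Finset.sum_sub_distrib, Finset.sum_add_distrib, ← Finset.mul_sum] at h2 h3 ⊢
  rw [hat_sum]
  simp only [← Finset.mul_sum] at h2 h3 ⊢
  rw [h2, h3]
  ring

/-- **Dispersion.** A weighted family of `N` points whose sum has small height, whose mean height
is at least about `q` and whose heights are at most about `(m + 1) q`: at least `N / (m + 2)` of
the points are at a distance from any given point. -/
lemma disperse (A : AbelianVariety G) {D : A.NS} (hD : D ∈ A.Nef) {ι : Type} (T : Finset ι)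
    (a : ι → ℕ) (x : ι → A.Pt) (γ s₀ : A.Pt) (hs : ∑ i ∈ T, a i • x i = s₀) {N m : ℕ}
    (hN : ∑ i ∈ T, a i = N) (hN0 : 0 < N) {q : ℝ} (hq : 0 < q)
    (hlow : (1 - 1 / (8 * (N : ℝ))) * (N * q) ≤ ∑ i ∈ T, (a i : ℝ) * A.hat D (x i))
    (hup : ∀ i ∈ T, A.hat D (x i) ≤ ((m : ℝ) + 1 + 1 / (8 * (N : ℝ))) * q)
    (hs0 : (1 + 8 * (N : ℝ) * ((m : ℝ) + 2)) * A.hat D s₀ ≤ 1 / (8 * (N : ℝ)) * q) :
    (N : ℝ) / ((m : ℝ) + 2) ≤ ∑ i ∈ T with q / (16 * (N : ℝ)) ≤ A.hat D (x i - γ), (a i : ℝ) := by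
  classical
  have hNr : (0 : ℝ) < N := by exact_mod_cast hN0
  have hN1 : (1 : ℝ) ≤ N := by exact_mod_cast hN0
  obtain ⟨O, hO⟩ : ∃ O, O = {i ∈ T | q / (16 * (N : ℝ)) ≤ A.hat D (x i - γ)} := ⟨_, rfl⟩
  obtain ⟨I, hI⟩ : ∃ I, I = {i ∈ T | ¬ q / (16 * (N : ℝ)) ≤ A.hat D (x i - γ)} := ⟨_, rfl⟩
  rw [← hO]
  have hsplit : ∀ f : ι → ℝ, ∑ i ∈ O, f i + ∑ i ∈ I, f i = ∑ i ∈ T, f i := by
    intro f
    rw [hO, hI]
    exact Finset.sum_filter_add_sum_filter_not T _ f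
  have hsplitP : ∑ i ∈ O, a i • x i + ∑ i ∈ I, a i • x i = s₀ := by
    rw [hO, hI, ← hs]
    exact Finset.sum_filter_add_sum_filter_not T _ _
  obtain ⟨n', hn'⟩ : ∃ n' : ℕ, n' = ∑ i ∈ O, a i := ⟨_, rfl⟩
  have hn'r : (n' : ℝ) = ∑ i ∈ O, (a i : ℝ) := by rw [hn']; push_cast; rfl
  obtain ⟨n, hn⟩ : ∃ n : ℝ, n = ∑ i ∈ I, (a i : ℝ) := ⟨_, rfl⟩
  have hsum : (n' : ℝ) + n = N := by
    rw [hn'r, hn, hsplit]
    exact_mod_cast hN
  have hn0 : 0 ≤ n := by rw [hn]; exact Finset.sum_nonneg fun i _ => Nat.cast_nonneg _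
  rw [← hn'r, div_le_iff₀ (by positivity)]
  by_contra hlt
  have hlt' : n' * (m + 2) + 1 ≤ N := by
    have : (n' : ℝ) * ((m : ℝ) + 2) < N := not_le.1 hlt
    have h2 : n' * (m + 2) < N := by exact_mod_cast this
    exact h2
  have hltr : (n' : ℝ) * ((m : ℝ) + 2) + 1 ≤ N := by exact_mod_cast hlt'
  have hn'0 : (0 : ℝ) ≤ n' := Nat.cast_nonneg _
  -- the inner points
  have hin : ∀ i ∈ I, A.hat D (x i - γ) ≤ q / (16 * (N : ℝ)) := by
    intro i hi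
    rw [hI] at hi
    exact (not_le.1 (Finset.mem_filter.1 hi).2).le
  have hdiff : ∀ i ∈ I, ∀ j ∈ I, A.hat D (x i - x j) ≤ 4 * (q / (16 * (N : ℝ))) := by
    intro i hi j hj
    have h1 := hin i hi
    have h2 := hin j hj
    have h3 := A.hat_nonneg D hD ((x i - γ) + 1 • (x j - γ))
    rw [hat_add_nsmul] at h3
    have h4 : x i - x j = (x i - γ) - (x j - γ) := by abel
    rw [h4, hat_sub]
    push_cast at h3
    linarith
  have hvarI := variance A D I a x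
  have hvarI2 : ∑ i ∈ I, ∑ j ∈ I, (a i : ℝ) * ((a j : ℝ) * A.hat D (x i - x j))
      ≤ n * (n * (4 * (q / (16 * (N : ℝ))))) := by
    rw [hn, Finset.sum_mul]
    refine Finset.sum_le_sum fun i hi => ?_
    rw [← Finset.mul_sum]
    refine mul_le_mul_of_nonneg_left ?_ (Nat.cast_nonneg _)
    rw [Finset.sum_mul]
    exact Finset.sum_le_sum fun j hj =>
      mul_le_mul_of_nonneg_left (hdiff i hi j hj) (Nat.cast_nonneg _)
  rw [hvarI, ← hn] at hvarI2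
  -- the outer points
  have hvarO := variance A D O a x
  have hvarO2 : 0 ≤ ∑ i ∈ O, ∑ j ∈ O, (a i : ℝ) * ((a j : ℝ) * A.hat D (x i - x j)) :=
    Finset.sum_nonneg fun i _ => Finset.sum_nonneg fun j _ =>
      mul_nonneg (Nat.cast_nonneg _) (mul_nonneg (Nat.cast_nonneg _) (A.hat_nonneg D hD _))
  rw [hvarO, ← hn'r] at hvarO2
  obtain ⟨b, hb⟩ : ∃ b : ℝ, b = (m : ℝ) + 1 + 1 / (8 * (N : ℝ)) := ⟨_, rfl⟩
  have hb0 : 0 < b := by rw [hb]; positivity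
  rw [← hb] at hup
  have hupO : ∑ i ∈ O, (a i : ℝ) * A.hat D (x i) ≤ n' * (b * q) := by
    rw [hn'r, Finset.sum_mul]
    refine Finset.sum_le_sum fun i hi => ?_
    rw [hO] at hi
    exact mul_le_mul_of_nonneg_left (hup i (Finset.mem_filter.1 hi).1) (Nat.cast_nonneg _)
  -- the sums
  obtain ⟨SO, hSO⟩ : ∃ SO, SO = ∑ i ∈ O, a i • x i := ⟨_, rfl⟩
  obtain ⟨SI, hSI⟩ : ∃ SI, SI = ∑ i ∈ I, a i • x i := ⟨_, rfl⟩
  rw [← hSO, ← hSI] at hsplitP
  rw [← hSO] at hvarO2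
  rw [← hSI] at hvarI2
  obtain ⟨SQO, hSQO⟩ : ∃ SQO, SQO = ∑ i ∈ O, (a i : ℝ) * A.hat D (x i) := ⟨_, rfl⟩
  obtain ⟨SQI, hSQI⟩ : ∃ SQI, SQI = ∑ i ∈ I, (a i : ℝ) * A.hat D (x i) := ⟨_, rfl⟩
  rw [← hSQO] at hvarO2 hupO
  rw [← hSQI] at hvarI2
  have hlow2 : (1 - 1 / (8 * (N : ℝ))) * (N * q) ≤ SQO + SQI := by
    rw [hSQO, hSQI, hsplit]
    exact hlow
  obtain ⟨k, hk⟩ : ∃ k : ℕ, k = 8 * N * (m + 2) := ⟨_, rfl⟩
  have hkr : (k : ℝ) = 8 * (N : ℝ) * ((m : ℝ) + 2) := by rw [hk]; push_cast; ring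
  have hk0 : (0 : ℝ) < k := by rw [hkr]; positivity
  have hpos := A.hat_nonneg D hD (SO + k • s₀)
  rw [hat_add_nsmul] at hpos
  have hSIeq : SI = s₀ - SO := by rw [← hsplitP]; abel
  rw [hSIeq, hat_sub, A.pairing_comm D s₀ SO] at hvarI2
  obtain ⟨p, hp⟩ : ∃ p, p = A.pairing D SO s₀ := ⟨_, rfl⟩
  obtain ⟨Q0, hQ0⟩ : ∃ Q0, Q0 = A.hat D s₀ := ⟨_, rfl⟩
  obtain ⟨QO, hQO⟩ : ∃ QO, QO = A.hat D SO := ⟨_, rfl⟩
  rw [← hp, ← hQ0, ← hQO] at hpos hvarI2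
  rw [← hQO] at hvarO2
  rw [← hQ0, ← hkr] at hs0
  have hQO0 : 0 ≤ QO := by rw [hQO]; exact A.hat_nonneg D hD _
  have hpk : -2 * p ≤ QO / k + k * Q0 := by
    have h1 : -2 * p * k ≤ (QO / k + k * Q0) * k := by
      have : (QO / k + k * Q0) * k = QO + k * (k * Q0) := by field_simp
      rw [this]
      linarith
    exact le_of_mul_le_mul_right h1 hk0
  -- n * SQI ≤ QO (1 + 1/k) + (1 + k) Q0 + 2 n² q / (16 N)
  have h1 : n * SQI ≤ QO * (1 + 1 / k) + (1 + k) * Q0 + n * (n * (2 * (q / (16 * (N : ℝ))))) := by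
    have : QO * (1 + 1 / k) = QO + QO / k := by ring
    rw [this]
    linarith
  have h2 : QO ≤ n' * (n' * (b * q)) := by
    have : QO ≤ n' * SQO := by linarith
    exact this.trans (mul_le_mul_of_nonneg_left hupO hn'0)
  have h3 : n * SQO ≤ n * (n' * (b * q)) := mul_le_mul_of_nonneg_left hupO hn0
  have h4 : n * ((1 - 1 / (8 * (N : ℝ))) * (N * q)) ≤ n * (SQO + SQI) :=
    mul_le_mul_of_nonneg_left hlow2 hn0
  have h5 : QO * (1 + 1 / k) ≤ n' * (n' * (b * q)) * (1 + 1 / k) :=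
    mul_le_mul_of_nonneg_right h2 (by positivity)
  -- everything divided by q
  have h6 : q * (n * ((1 - 1 / (8 * (N : ℝ))) * N)) ≤
      q * (n' * (n' * b) * (1 + 1 / k) + 1 / (8 * (N : ℝ)) + n * (n * (2 / (16 * (N : ℝ))))
        + n * (n' * b)) := by
    have e1 : q * (n * ((1 - 1 / (8 * (N : ℝ))) * N)) = n * ((1 - 1 / (8 * (N : ℝ))) * (N * q)) := by
      ring
    have e2 : q * (n' * (n' * b) * (1 + 1 / k) + 1 / (8 * (N : ℝ)) +
        n * (n * (2 / (16 * (N : ℝ)))) + n * (n' * b)) = n' * (n' * (b * q)) * (1 + 1 / k)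
        + 1 / (8 * (N : ℝ)) * q + n * (n * (2 * (q / (16 * (N : ℝ))))) + n * (n' * (b * q)) := by
      ring
    rw [e1, e2]
    have e3 : n * (SQO + SQI) = n * SQO + n * SQI := by ring
    linarith
  have h7 := le_of_mul_le_mul_left h6 hq
  -- the arithmetic
  have hnN : n ≤ N := by linarith
  have h8 : n' * (n' * b) * (1 + 1 / k) + n * (n' * b) ≤ N * (n' * (b * (1 + 1 / k))) := by
    have e1 : (N : ℝ) = n' + n := hsum.symm
    have e2 : 0 ≤ n * (n' * (b * (1 / k))) := by positivity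
    rw [e1]
    have e3 : (↑n' + n) * (↑n' * (b * (1 + 1 / ↑k))) =
        n' * (n' * b) * (1 + 1 / k) + n * (n' * b) + n * (n' * (b * (1 / k))) := by ring
    rw [e3]
    linarith
  have h9 : b * (1 + 1 / k) ≤ (m : ℝ) + 1 + 2 / (8 * (N : ℝ)) := by
    have e1 : b ≤ (m : ℝ) + 2 := by
      rw [hb]
      have : 1 / (8 * (N : ℝ)) ≤ 1 := by
        rw [div_le_one (by positivity)]
        linarith
      linarith
    have e2 : b * (1 / k) ≤ 1 / (8 * (N : ℝ)) := by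
      calc b * (1 / k) ≤ ((m : ℝ) + 2) * (1 / k) := mul_le_mul_of_nonneg_right e1 (by positivity)
        _ = 1 / (8 * (N : ℝ)) := by
            rw [hkr]
            field_simp
    have e3 : 2 / (8 * (N : ℝ)) = 1 / (8 * (N : ℝ)) + 1 / (8 * (N : ℝ)) := by ring
    have e4 : b * (1 + 1 / k) = b + b * (1 / k) := by ring
    rw [e4, e3]
    linarith
  have h10 : N * (n' * (b * (1 + 1 / k))) ≤ N * (n' * ((m : ℝ) + 1 + 2 / (8 * (N : ℝ)))) :=
    mul_le_mul_of_nonneg_left (mul_le_mul_of_nonneg_left h9 hn'0) hNr.le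
  have h11 : n * (n * (2 / (16 * (N : ℝ)))) ≤ N * (1 / 8) := by
    have e1 : n * n ≤ N * N := mul_le_mul hnN hnN hn0 hNr.le
    have e2 : n * (n * (2 / (16 * (N : ℝ)))) = (n * n) * (2 / (16 * (N : ℝ))) := by ring
    have e3 : (N * N : ℝ) * (2 / (16 * (N : ℝ))) = N * (1 / 8) := by
      field_simp
      norm_num
    rw [e2, ← e3]
    exact mul_le_mul_of_nonneg_right e1 (by positivity)
  have h12 : 1 / (8 * (N : ℝ)) ≤ N * (1 / 8) := by
    rw [div_le_iff₀ (by positivity)]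
    nlinarith
  have h13 : n * ((1 - 1 / (8 * (N : ℝ))) * N) = N * n - n * (1 / 8) := by
    field_simp
  have h14 : N * (n' * ((m : ℝ) + 1 + 2 / (8 * (N : ℝ)))) = N * (n' * ((m : ℝ) + 1)) + n' * (1 / 4) := by
    field_simp
    ring
  rw [h13] at h7
  rw [h14] at h10
  have h15 : (n' : ℝ) ≤ N := by linarith
  -- N n ≤ N n' (m+1) + N (1/8 + 1/8 + 1/8 + 1/4)
  have h16 : (N : ℝ) * n ≤ N * (n' * ((m : ℝ) + 1) + 5 / 8) := by
    have e1 : (N : ℝ) * (n' * ((m : ℝ) + 1) + 5 / 8) = N * (n' * ((m : ℝ) + 1)) + N * (5 / 8) := by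
      ring
    rw [e1]
    linarith
  have h17 := le_of_mul_le_mul_left h16 hNr
  have h18 : (n' : ℝ) * ((m : ℝ) + 2) = n' * ((m : ℝ) + 1) + n' := by ring
  linarith

end Pool.Agent.Q8.ZA
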