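import Mathlib
import Pool.Agent.Q8.ZA.Main
import Pool.Agent.Q8.KS.Share4

/-!
Upper bounds for the heights of a cone of nef classes from Siu's criterion, and the dispersion of
the points of a fibre in an abelian variety.
-/

set_option autoImplicit false

open Filter Topology

namespace Pool.Agent.Q8.ZA

open Pool.Agent.Q8.KS

variable {G : Type} [Group G]
variable {F : Type} [NormedAddCommGroup F] [NormedSpace ℝ F] [FiniteDimensional ℝ F]

/-- One nef class. -/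
lemma big_local {W : Variety G} (E : Effective W) (P : F →ₗ[ℝ] W.Pic)
    (η : F →ₗ[ℝ] (W.Pt → ℝ)) (hη : ∀ D, W.IsHeight (P D) (η D)) {H : W.Pic} (hH : W.IsAmple H)
    {u : W.Pt → ℝ} (hu : W.IsHeight H u) {a : ℝ} (ha : 0 < a) {D : F}
    (hD : W.cls (P D) ∈ W.Nef)
    (hlt : ((W.dimPred : ℝ) + 1) * W.deg (W.cls H) (W.cls (P D)) <
      a * W.deg (W.cls H) (W.cls H)) :
    ∃ Z ∈ E.closed, ∃ c : ℝ, ∀ y, y ∉ Z → η D y ≤ a * u y + c := by
  obtain ⟨B, Z, hBZ, hamp⟩ := E.siu (a • W.cls H) (ample_smul W.nef_cone hH ha) (W.cls (P D))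
    hD (by
      rw [deg_smul, deg_smul, map_smul, smul_eq_mul]
      have : 0 < a ^ W.dimPred := pow_pos ha _
      nlinarith)
  obtain ⟨b, hb⟩ := Submodule.mkQ_surjective (bdd W.Pt) (W.height B)
  obtain ⟨c1, hc1⟩ := E.height_eff B Z hBZ b hb.symm
  have h1 : W.cls (a • H - P D - B) ∈ interior W.Nef := by
    rw [map_sub, map_sub, map_smul]
    exact hamp
  obtain ⟨c2, hc2⟩ := W.ample_height _ h1 _
    (height_sub W (height_sub W (height_smul W a hu) (hη D)) hb.symm)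
  refine ⟨Z, E.support_mem _ _ hBZ, -c1 - c2, fun y hy => ?_⟩
  have h2 := hc1 y hy
  have h3 := hc2 y
  simp only [Pi.sub_apply, Pi.smul_apply, smul_eq_mul] at h3
  linarith

/-- All the nef classes of the cone at once. -/
theorem big_upper {W : Variety G} (E : Effective W) {S : Set F} (hS : IsCone S)
    (P : F →ₗ[ℝ] W.Pic) (η : F →ₗ[ℝ] (W.Pt → ℝ)) (hη : ∀ D, W.IsHeight (P D) (η D))
    (hnef : ∀ D ∈ S, W.cls (P D) ∈ W.Nef) (hpos : ∀ D ∈ S, D ≠ 0 → W.cls (P D) ≠ 0)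
    {H : W.Pic} (hH : W.IsAmple H) {u : W.Pt → ℝ} (hu : W.IsHeight H u)
    (hv : 0 < W.deg (W.cls H) (W.cls H)) {ε : ℝ} (hε : 0 < ε) :
    ∃ Z ∈ E.closed, ∃ c : ℝ, 0 ≤ c ∧ ∀ D ∈ S, ∀ y, y ∉ Z →
      η D y ≤ W.deg (W.cls H) (W.cls (P D)) *
        (((W.dimPred : ℝ) + 1 + ε) / W.deg (W.cls H) (W.cls H) * max 1 (u y) + c) := by
  classical
  obtain ⟨v, hvd⟩ : ∃ v : ℝ, v = W.deg (W.cls H) (W.cls H) := ⟨_, rfl⟩
  rw [← hvd] at hv ⊢
  obtain ⟨K, hK, hKb⟩ := lift_bound P η hη hH hu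
  obtain ⟨M, hM, hMb⟩ := cone_le_deg hS P hnef hpos hH
  obtain ⟨L, hL⟩ : ∃ L : F →ₗ[ℝ] ℝ, L = (W.deg (W.cls H)) ∘ₗ W.cls ∘ₗ P := ⟨_, rfl⟩
  have hLD : ∀ D, W.deg (W.cls H) (W.cls (P D)) = L D := fun D => by rw [hL]; rfl
  obtain ⟨m, hm⟩ : ∃ m : ℝ, m = (W.dimPred : ℝ) + 1 := ⟨_, rfl⟩
  rw [← hm]
  have hm0 : 0 < m := by rw [hm]; positivity
  have hcomp : IsCompact {D : F | D ∈ S ∧ L D = 1} := by
    refine Metric.isCompact_of_isClosed_isBounded ?_ ?_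
    · exact hS.closed.inter ((isClosed_singleton (x := (1 : ℝ))).preimage (cont_lin L))
    · refine (Metric.isBounded_closedBall (x := (0 : F)) (r := M)).subset ?_
      rintro D ⟨hD, hD1⟩
      rw [mem_closedBall_zero_iff]
      have := hMb D hD
      rw [hLD, hD1, mul_one] at this
      exact this
  obtain ⟨Z, hZ, c, hc, hb⟩ : ∃ Z ∈ E.closed, ∃ c : ℝ, 0 ≤ c ∧
      ∀ D ∈ {D : F | D ∈ S ∧ L D = 1}, ∀ y, y ∉ Z →
        η D y ≤ (m + ε) / v * max 1 (u y) + c := by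
    refine hcomp.induction_on (p := fun S => ∃ Z ∈ E.closed, ∃ c : ℝ, 0 ≤ c ∧
      ∀ D ∈ S, ∀ y, y ∉ Z → η D y ≤ (m + ε) / v * max 1 (u y) + c) ?_ ?_ ?_ ?_
    · exact ⟨∅, E.empty_mem, 0, le_rfl, fun D hD => absurd hD (Set.notMem_empty D)⟩
    · rintro S T hST ⟨Z, hZ, c, hc, h⟩
      exact ⟨Z, hZ, c, hc, fun D hD => h D (hST hD)⟩
    · rintro S T ⟨Z, hZ, c, hc, h⟩ ⟨Z', hZ', c', hc', h'⟩
      refine ⟨Z ∪ Z', E.union_mem Z hZ Z' hZ', c + c', by positivity, ?_⟩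
      rintro D (hD | hD) y hy
      · have := h D hD y (fun h => hy (Or.inl h))
        linarith
      · have := h' D hD y (fun h => hy (Or.inr h))
        linarith
    · rintro D₀ ⟨hD₀, hD₁⟩
      obtain ⟨Z, hZ, c, hc⟩ := big_local E P η hη hH hu (a := (m + ε / 2) / v)
        (by positivity) (hnef D₀ hD₀) (by
          rw [hLD, hD₁, ← hvd, ← hm, div_mul_cancel₀ _ hv.ne']
          linarith)
      refine ⟨Metric.ball D₀ (ε / (2 * v * K)),
        mem_nhdsWithin_of_mem_nhds (Metric.ball_mem_nhds _ (by positivity)), Z, hZ, |c|,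
        abs_nonneg c, fun D hD y hy => ?_⟩
      have h1 := hc y hy
      have h2 := (le_abs_self _).trans (hKb (D - D₀) y)
      have h3 : ‖D - D₀‖ < ε / (2 * v * K) := by
        rw [← dist_eq_norm]
        exact hD
      have h4 : (0 : ℝ) < max 1 (u y) := lt_of_lt_of_le one_pos (le_max_left _ _)
      have h5 : K * ‖D - D₀‖ * max 1 (u y) ≤ ε / 2 / v * max 1 (u y) := by
        refine mul_le_mul_of_nonneg_right ?_ h4.le
        calc K * ‖D - D₀‖ ≤ K * (ε / (2 * v * K)) := mul_le_mul_of_nonneg_left h3.le hK.le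
          _ = ε / 2 / v := by field_simp
      have h6 : η D y = η D₀ y + η (D - D₀) y := by
        rw [map_sub, Pi.sub_apply]
        ring
      have h7 : (m + ε / 2) / v * u y ≤ (m + ε / 2) / v * max 1 (u y) :=
        mul_le_mul_of_nonneg_left (le_max_right _ _) (by positivity)
      have h8 : (m + ε) / v * max 1 (u y) = (m + ε / 2) / v * max 1 (u y)
          + ε / 2 / v * max 1 (u y) := by ring
      rw [h6, h8]
      linarith [le_abs_self c]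
  refine ⟨Z, hZ, c, hc, fun D hD y hy => ?_⟩
  rw [hLD]
  have h0 := hMb D hD
  rw [hLD] at h0
  have hL0 : 0 ≤ L D := nonneg_of_mul_nonneg_right ((norm_nonneg D).trans h0) hM
  rcases hL0.eq_or_lt with h1 | h1
  · have h2 : D = 0 := by
      rw [← h1, mul_zero] at h0
      exact norm_le_zero_iff.1 h0
    rw [h2, map_zero, map_zero, zero_mul]
    exact le_rfl
  · have h2 := hb ((L D)⁻¹ • D) ⟨hS.smul _ (inv_nonneg.2 hL0) D hD, by
      rw [map_smul, smul_eq_mul, inv_mul_cancel₀ h1.ne']⟩ y hy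
    rw [map_smul, Pi.smul_apply, smul_eq_mul, inv_mul_le_iff₀ h1] at h2
    exact h2

/-- The upper bound relative to a covering. -/
theorem upper_siu {W : Variety G} (E : Effective W) {S : Set F} (hS : IsCone S)
    (P : F →ₗ[ℝ] W.Pic) (η : F →ₗ[ℝ] (W.Pt → ℝ)) (hη : ∀ D, W.IsHeight (P D) (η D))
    (hnef : ∀ D ∈ S, W.cls (P D) ∈ W.Nef) (hpos : ∀ D ∈ S, D ≠ 0 → W.cls (P D) ≠ 0)
    (c : Cover W) {ε : ℝ} (hε : 0 < ε) :
    ∃ Z ∈ E.closed, ∃ C : ℝ, 0 < C ∧ ∀ y, y ∉ Z → C ≤ c.h (c.φ y) → ∀ D ∈ S,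
      η D y ≤ ((W.dimPred : ℝ) + 1 + ε) *
        (W.deg (W.cls c.H) (W.cls (P D)) / c.N * c.h (c.φ y)) := by
  have hN : (0 : ℝ) < c.N := by exact_mod_cast c.N_pos
  obtain ⟨Z, hZ, b, hb, h⟩ := big_upper E hS P η hη hnef hpos c.ample c.height_H
    (by rw [c.deg_H]; exact hN) (ε := ε / 2) (by positivity)
  refine ⟨Z, hZ, 1 + 2 * b * c.N / ε, by positivity, fun y hy hC D hD => ?_⟩
  have h1 := h D hD y hy
  rw [c.deg_H] at h1
  obtain ⟨x, hx⟩ : ∃ x : ℝ, x = c.h (c.φ y) := ⟨_, rfl⟩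
  have h2 : (c.h ∘ c.φ) y = x := hx.symm
  rw [h2] at h1
  rw [← hx] at hC ⊢
  have h3 : 0 ≤ 2 * b * c.N / ε := by positivity
  have hx1 : 1 ≤ x := by linarith
  rw [max_eq_right hx1] at h1
  have hL : 0 ≤ W.deg (W.cls c.H) (W.cls (P D)) := by
    by_cases h0 : W.cls (P D) = 0
    · rw [h0, map_zero]
    · exact (W.int_pos _ c.ample _ (hnef D hD) h0).le
  have h4 : b ≤ ε / 2 / c.N * x := by
    have h5 : 2 * b * c.N / ε ≤ x := by linarith
    rw [div_le_iff₀ hε] at h5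
    rw [div_mul_eq_mul_div, le_div_iff₀ hN]
    linarith
  calc η D y ≤ W.deg (W.cls c.H) (W.cls (P D)) *
        (((W.dimPred : ℝ) + 1 + ε / 2) / c.N * x + b) := h1
    _ ≤ W.deg (W.cls c.H) (W.cls (P D)) *
        (((W.dimPred : ℝ) + 1 + ε / 2) / c.N * x + ε / 2 / c.N * x) :=
        mul_le_mul_of_nonneg_left (by linarith) hL
    _ = ((W.dimPred : ℝ) + 1 + ε) * (W.deg (W.cls c.H) (W.cls (P D)) / c.N * x) := by
        field_simp
        ring

end Pool.Agent.Q8.ZA
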