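import Mathlib
import Pool.Agent.Q8.ZA.Share
import Pool.Agent.Q8.ZA.Disperse

/-!
The points of a fibre of a finite morphism to projective space and the cosets of proper algebraic
subgroups.
-/

set_option autoImplicit false

namespace Pool.Agent.Q8.ZA

open Pool.Agent.Q8.KS

variable {G : Type} [Group G]

/-- From a share of the fibre to the points of large relative degree; the property is only
supposed to be invariant under the stabilizer of the base point. -/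
lemma rel_of_share {W : Variety G} (c : Cover W) (P : W.Pt → Prop) {w : W.Pt}
    (hP : ∀ g : G, g • c.φ w = c.φ w → ∀ y : W.Pt, P y → P (g • y)) {p : ℝ}
    (h : AtLeast c (c.φ w) p P) (hw : (c.N : ℝ) - p < c.relDeg w) : P w := by
  classical
  obtain ⟨S, hS, hSP, hp⟩ := h
  by_contra hcon
  have hdisj : Disjoint (conj c w) S := by
    rw [Finset.disjoint_left]
    intro y hy hyS
    obtain ⟨hy1, hy2⟩ := (mem_conj c w y).1 hy
    obtain ⟨g, hg⟩ := MulAction.mem_orbit_iff.1 hy2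
    have hgt : g • c.φ w = c.φ w := by rw [← c.φ_smul, hg, hy1]
    have hgt' : g⁻¹ • c.φ w = c.φ w := by
      conv_lhs => rw [← hgt]
      rw [inv_smul_smul]
    have h1 := hP g⁻¹ hgt' y (hSP y hyS)
    rw [← hg, inv_smul_smul] at h1
    exact hcon h1
  have h1 : ∑ y ∈ conj c w, (c.mult y : ℝ) + ∑ y ∈ S, (c.mult y : ℝ) ≤ c.N := by
    rw [← Finset.sum_union hdisj]
    have h2 : ∑ y ∈ c.fib (c.φ w), (c.mult y : ℝ) = c.N := by exact_mod_cast c.sum_mult _
    rw [← h2]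
    exact Finset.sum_le_sum_of_subset_of_nonneg (Finset.union_subset (conj_sub c w) hS)
      fun y _ _ => Nat.cast_nonneg _
  have h2 := card_le_mult c w
  linarith

/-- **The points of a fibre are dispersed.** -/
theorem fibre_dispersed {W : Variety G} (E : Effective W) {A : AbelianVariety G}
    (j : GeneratingMap W A) (c : Cover W) :
    ∃ Z ∈ E.closed, ∃ C : ℝ, 0 < C ∧ ∀ t : c.P, C ≤ c.h t → (∀ y ∈ c.fib t, y ∉ Z) →
      ∀ D ∈ A.Nef,
        (∀ γ : A.Pt, AtLeast c t (c.N / ((W.dimPred : ℝ) + 2)) (fun w =>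
          W.deg (W.cls c.H) (W.cls (j.pic D)) * c.h t ≤ C * A.hat D (j.pt w - γ))) ∧
        AtLeast c t (c.N / ((W.dimPred : ℝ) + 1)) (fun w =>
          W.deg (W.cls c.H) (W.cls (j.pic D)) * c.h t ≤ C * A.hat D (j.pt w)) := by
  classical
  have hN : (0 : ℝ) < c.N := by exact_mod_cast c.N_pos
  have hN1 : (1 : ℝ) ≤ c.N := by exact_mod_cast c.N_pos
  obtain ⟨s₀, hs₀⟩ := j.trace c
  have hη : ∀ D, W.IsHeight (j.pic D) (((LinearMap.funLeft ℝ ℝ j.pt) ∘ₗ A.hat) D) := j.height_pic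
  obtain ⟨K, hK, hnorm⟩ := norm_unif j.pic ((LinearMap.funLeft ℝ ℝ j.pt) ∘ₗ A.hat) hη c
  obtain ⟨M, hM, hMb⟩ := cone_le_deg A.nef_cone j.pic j.nef j.generates c.ample
  obtain ⟨Z, hZ, C₁, hC₁, hup⟩ := upper_siu E A.nef_cone j.pic
    ((LinearMap.funLeft ℝ ℝ j.pt) ∘ₗ A.hat) hη j.nef j.generates c
    (ε := 1 / (8 * (c.N : ℝ))) (by positivity)
  obtain ⟨K2, hK2, hs⟩ := lin_err (E := A.NS) (X := Unit)
    ((LinearMap.funLeft ℝ ℝ (fun _ : Unit => s₀)) ∘ₗ A.hat) (fun _ => 1) (fun _ => zero_le_one)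
    (fun D => ⟨|A.hat D s₀|, fun _ => by rw [mul_one]; exact le_rfl⟩)
  have hs' : ∀ D, A.hat D s₀ ≤ K2 * ‖D‖ := by
    intro D
    have := hs D ()
    rw [mul_one] at this
    exact (le_abs_self _).trans this
  obtain ⟨m, hm⟩ : ∃ m : ℕ, m = W.dimPred := ⟨_, rfl⟩
  obtain ⟨k, hk⟩ : ∃ k : ℝ, k = 1 + 8 * (c.N : ℝ) * ((m : ℝ) + 2) := ⟨_, rfl⟩
  have hk0 : 0 < k := by rw [hk]; positivity
  refine ⟨Z, hZ, C₁ + 8 * c.N * (K * M) + 8 * c.N * (c.N * (k * (K2 * M))) + 16 * c.N * c.N,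
    by positivity, fun t ht htZ D hD => ?_⟩
  have hp1 : 0 < 8 * c.N * (K * M) := by positivity
  have hp2 : 0 < 8 * c.N * (c.N * (k * (K2 * M))) := by positivity
  have hp3 : 0 < 16 * (c.N : ℝ) * c.N := by positivity
  obtain ⟨C, hC⟩ : ∃ C : ℝ, C = C₁ + 8 * c.N * (K * M) + 8 * c.N * (c.N * (k * (K2 * M)))
    + 16 * c.N * c.N := ⟨_, rfl⟩
  rw [← hC] at ht ⊢
  have hC0 : 0 < C := by rw [hC]; positivity
  obtain ⟨h, hh⟩ : ∃ h : ℝ, h = c.h t := ⟨_, rfl⟩
  rw [← hh] at ht ⊢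
  have hh0 : 0 < h := lt_of_lt_of_le hC0 ht
  have hsum : ∑ y ∈ c.fib t, (c.mult y : ℝ) = c.N := by exact_mod_cast c.sum_mult t
  by_cases hD0 : D = 0
  · have h1 : ∀ x : A.Pt, W.deg (W.cls c.H) (W.cls (j.pic D)) * h ≤ C * A.hat D x := by
      intro x
      rw [hD0, map_zero, map_zero, map_zero, map_zero, Pi.zero_apply, mul_zero, zero_mul]
    refine ⟨fun γ => ⟨c.fib t, Finset.Subset.refl _, fun w _ => h1 _, ?_⟩,
      ⟨c.fib t, Finset.Subset.refl _, fun w _ => h1 _, ?_⟩⟩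
    · rw [hsum, div_le_iff₀ (by positivity)]
      have : (0 : ℝ) ≤ W.dimPred := Nat.cast_nonneg _
      nlinarith
    · rw [hsum, div_le_iff₀ (by positivity)]
      have : (0 : ℝ) ≤ W.dimPred := Nat.cast_nonneg _
      nlinarith
  obtain ⟨L, hL⟩ : ∃ L : ℝ, L = W.deg (W.cls c.H) (W.cls (j.pic D)) := ⟨_, rfl⟩
  have hL0 : 0 < L := by
    rw [hL]
    exact W.int_pos _ c.ample _ (j.nef D hD) (j.generates D hD hD0)
  have hDL := hMb D hD
  have hnormD := (abs_le.1 (hnorm D t)).1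
  rw [← hL] at hDL hnormD ⊢
  have hsumeq : ∑ y ∈ c.fib t, (c.mult y : ℝ) * A.hat D (j.pt y)
      = ∑ y ∈ c.fib t, (c.mult y : ℝ) * ((LinearMap.funLeft ℝ ℝ j.pt) ∘ₗ A.hat) D y := rfl
  rw [← hsumeq, ← hh] at hnormD
  have hq : 0 < L / c.N * h := by positivity
  have hNq : (c.N : ℝ) * (L / c.N * h) = L * h := by field_simp
  have hlow : (1 - 1 / (8 * (c.N : ℝ))) * (c.N * (L / c.N * h)) ≤
      ∑ y ∈ c.fib t, (c.mult y : ℝ) * A.hat D (j.pt y) := by
    rw [hNq]
    have h1 : K * ‖D‖ ≤ K * (M * L) := mul_le_mul_of_nonneg_left hDL hK.le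
    have h2 : K * (M * L) ≤ 1 / (8 * (c.N : ℝ)) * (L * h) := by
      have h3 : 8 * c.N * (K * M) ≤ h := by linarith
      have h4 : K * M ≤ 1 / (8 * (c.N : ℝ)) * h := by
        rw [one_div, le_inv_mul_iff₀ (by positivity)]
        exact h3
      calc K * (M * L) = (K * M) * L := by ring
        _ ≤ 1 / (8 * (c.N : ℝ)) * h * L := mul_le_mul_of_nonneg_right h4 hL0.le
        _ = _ := by ring
    linarith
  have hupt : ∀ y ∈ c.fib t, A.hat D (j.pt y) ≤
      ((m : ℝ) + 1 + 1 / (8 * (c.N : ℝ))) * (L / c.N * h) := by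
    intro y hy
    have hφ : c.φ y = t := (c.mem_fib _ _).1 hy
    have := hup y (htZ y hy) (by rw [hφ, ← hh]; linarith) D hD
    rw [hφ, ← hL, ← hh, ← hm] at this
    exact this
  refine ⟨fun γ => ?_, ?_⟩
  · have hs0 : (1 + 8 * (c.N : ℝ) * ((m : ℝ) + 2)) * A.hat D s₀ ≤
        1 / (8 * (c.N : ℝ)) * (L / c.N * h) := by
      rw [← hk]
      have h1 : k * A.hat D s₀ ≤ k * (K2 * (M * L)) :=
        mul_le_mul_of_nonneg_left ((hs' D).trans (mul_le_mul_of_nonneg_left hDL hK2.le)) hk0.le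
      have h3 : 8 * c.N * (c.N * (k * (K2 * M))) ≤ h := by linarith
      have h4 : k * (K2 * M) ≤ 1 / (8 * (c.N : ℝ)) * (1 / c.N * h) := by
        rw [one_div, le_inv_mul_iff₀ (by positivity), one_div, le_inv_mul_iff₀ hN]
        linarith
      refine h1.trans ?_
      calc k * (K2 * (M * L)) = (k * (K2 * M)) * L := by ring
        _ ≤ 1 / (8 * (c.N : ℝ)) * (1 / c.N * h) * L := mul_le_mul_of_nonneg_right h4 hL0.le
        _ = _ := by ring
    have h1 := disperse A hD (c.fib t) c.mult j.pt γ s₀ (hs₀ t) (c.sum_mult t) c.N_pos hq hlow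
      hupt hs0
    refine ⟨{y ∈ c.fib t | L / c.N * h / (16 * (c.N : ℝ)) ≤ A.hat D (j.pt y - γ)},
      Finset.filter_subset _ _, fun w hw => ?_, by rw [← hm]; exact h1⟩
    have h2 := (Finset.mem_filter.1 hw).2
    rw [div_le_iff₀ (by positivity)] at h2
    have h3 : 0 ≤ A.hat D (j.pt w - γ) := A.hat_nonneg D hD _
    have h4 : L * h ≤ 16 * c.N * c.N * A.hat D (j.pt w - γ) := by
      calc L * h = c.N * (L / c.N * h) := hNq.symm
        _ ≤ c.N * (A.hat D (j.pt w - γ) * (16 * c.N)) := mul_le_mul_of_nonneg_left h2 hN.le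
        _ = _ := by ring
    exact h4.trans (mul_le_mul_of_nonneg_right (by linarith) h3)
  · have h1 := count_large (c.fib t) (fun y => (c.mult y : ℝ)) (fun y => A.hat D (j.pt y))
      (fun y _ => Nat.cast_nonneg _) (N := c.N) (q := L / c.N * h)
      (β := (m : ℝ) + 1 + ((m : ℝ) + 1) / (8 * c.N)) (γ := 1 / (8 * (c.N : ℝ)))
      (δ := 1 / (8 * (c.N : ℝ))) hsum hq (by positivity) (by positivity)
      (fun y hy => by
        refine (hupt y hy).trans (mul_le_mul_of_nonneg_right ?_ hq.le)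
        have : 1 / (8 * (c.N : ℝ)) ≤ ((m : ℝ) + 1) / (8 * c.N) := by
          refine div_le_div_of_nonneg_right ?_ (by positivity)
          have : (0 : ℝ) ≤ m := Nat.cast_nonneg _
          linarith
        linarith)
      hlow
    refine ⟨{y ∈ c.fib t | 1 / (8 * (c.N : ℝ)) * (L / c.N * h) ≤ A.hat D (j.pt y)},
      Finset.filter_subset _ _, fun w hw => ?_, ?_⟩
    · have h2 := (Finset.mem_filter.1 hw).2
      have h3 : 0 ≤ A.hat D (j.pt w) := A.hat_nonneg D hD _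
      rw [one_div, inv_mul_le_iff₀ (by positivity)] at h2
      have h4 : L * h ≤ 16 * c.N * c.N * A.hat D (j.pt w) := by
        calc L * h = c.N * (L / c.N * h) := hNq.symm
          _ ≤ c.N * (8 * c.N * A.hat D (j.pt w)) := mul_le_mul_of_nonneg_left h2 hN.le
          _ = 8 * c.N * c.N * A.hat D (j.pt w) := by ring
          _ ≤ 16 * c.N * c.N * A.hat D (j.pt w) := by
              refine mul_le_mul_of_nonneg_right ?_ h3
              nlinarith
      exact h4.trans (mul_le_mul_of_nonneg_right (by linarith) h3)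
    · have e1 : ∑ w ∈ c.fib t with 1 / (8 * (c.N : ℝ)) * (L / c.N * h) ≤ A.hat D (j.pt w),
          (c.mult w : ℝ) = ((∑ w ∈ c.fib t with 1 / (8 * (c.N : ℝ)) * (L / c.N * h) ≤
          A.hat D (j.pt w), c.mult w : ℕ) : ℝ) := by push_cast; rfl
      rw [e1] at h1 ⊢
      rw [← hm]
      refine round_up c.N_pos (le_trans (le_of_eq ?_) h1)
      ring

end Pool.Agent.Q8.ZA
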