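import Mathlib
import Pool.Agent.Q8.ZA.Fib

set_option autoImplicit false

namespace Pool.Agent.Q8.ZA

open Pool.Agent.Q8.KS

variable {G : Type} [Group G]
variable {E : Type} [NormedAddCommGroup E] [NormedSpace ℝ E] [FiniteDimensional ℝ E]

/-- **Heights at points of large relative degree, approximately.** -/
theorem approx {W : Variety G} (P : E →ₗ[ℝ] W.Pic)
    (η : E →ₗ[ℝ] (W.Pt → ℝ)) (hη : ∀ D, W.IsHeight (P D) (η D))
    (hinv : ∀ (D : E) (g : G) (x : W.Pt), η D (g • x) = η D x)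
    {H₀ : W.Pic} (hH₀ : W.IsAmple H₀) :
    ∃ K₀ : ℝ, 0 < K₀ ∧ ∀ κ : ℝ, 0 < κ → ∀ c : Cover W,
      ∀ t : ℝ, 0 < t → W.cls c.H = t • W.cls H₀ →
      ∃ C : ℝ, 0 < C ∧ ∀ w : W.Pt, (1 - κ) * c.N < c.relDeg w → 0 ≤ c.h (c.φ w) → ∀ D : E,
        |η D w - W.deg (W.cls H₀) (W.cls (P D)) / W.deg (W.cls H₀) (W.cls H₀)
            * (c.h (c.φ w) / t)|
          ≤ (K₀ * κ * (c.h (c.φ w) / t) + C) * ‖D‖ := by
  classical
  obtain ⟨u₀, hu₀⟩ := Submodule.mkQ_surjective (bdd W.Pt) (W.height H₀)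
  have hu0 : W.IsHeight H₀ u₀ := hu₀.symm
  obtain ⟨K, hK, hKb⟩ := lift_bound P η hη hH₀ hu0
  obtain ⟨v₀, hv₀⟩ : ∃ v₀ : ℝ, v₀ = W.deg (W.cls H₀) (W.cls H₀) := ⟨_, rfl⟩
  rw [← hv₀]
  refine ⟨4 * K, by positivity, ?_⟩
  intro κ hκ0 c t ht hct
  have hN : (0 : ℝ) < c.N := by exact_mod_cast c.N_pos
  have hNt : (c.N : ℝ) = t ^ W.dimPred * t * v₀ := by
    rw [← c.deg_H, hct, deg_smul, map_smul, smul_eq_mul, hv₀]
    ring
  have htn : 0 < t ^ W.dimPred := pow_pos ht _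
  have hv0 : 0 < v₀ := by
    have h1 : 0 < t ^ W.dimPred * t * v₀ := by rw [← hNt]; exact hN
    exact pos_of_mul_pos_right h1 (by positivity)
  have hcmp : W.cls ((2 : ℝ) • c.H - t • H₀) ∈ interior W.Nef := by
    have h1 : W.cls ((2 : ℝ) • c.H - t • H₀) = t • W.cls H₀ := by
      rw [map_sub, map_smul, map_smul, hct, two_smul]
      abel
    rw [h1]
    exact ample_smul W.nef_cone hH₀ ht
  obtain ⟨c2, hc2⟩ := W.ample_height _ hcmp _
    (height_sub W (height_smul W 2 c.height_H) (height_smul W t hu0))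
  obtain ⟨K2, hK2, hnorm⟩ := norm_unif P η hη c
  obtain ⟨c3, hc3⟩ : ∃ c3 : ℝ, c3 = |c2| + t := ⟨_, rfl⟩
  have hc3' : 0 < c3 := by rw [hc3]; positivity
  refine ⟨K2 + 2 * (κ * K * (c3 / t)) + 1, by positivity, ?_⟩
  intro w hw hh0 D
  obtain ⟨h, hh⟩ : ∃ h : ℝ, h = c.h (c.φ w) := ⟨_, rfl⟩
  rw [← hh] at hh0 ⊢
  obtain ⟨L, hL⟩ : ∃ L : ℝ, L = W.deg (W.cls H₀) (W.cls (P D)) := ⟨_, rfl⟩
  have hdegc : W.deg (W.cls c.H) (W.cls (P D)) = t ^ W.dimPred * L := by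
    rw [hct, deg_smul, hL]
  rw [← hL]
  have h1 := hnorm D (c.φ w)
  rw [hdegc, ← hh, sum_split, sum_conj c w (η D) (fun g y => hinv D g y)] at h1
  obtain ⟨e, he⟩ : ∃ e : ℝ, e = ∑ y ∈ conj c w, (c.mult y : ℝ) := ⟨_, rfl⟩
  obtain ⟨R, hR⟩ : ∃ R : ℝ, R = ∑ y ∈ c.fib (c.φ w) \ conj c w, (c.mult y : ℝ) * η D y :=
    ⟨_, rfl⟩
  rw [← he, ← hR] at h1
  have h2 := sum_split_one c w
  rw [← he] at h2
  have h3 := card_le_mult c w
  rw [← he] at h3
  have hrest0 : 0 ≤ ∑ y ∈ c.fib (c.φ w) \ conj c w, (c.mult y : ℝ) :=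
    Finset.sum_nonneg fun y _ => Nat.cast_nonneg _
  have heN : e ≤ c.N := by linarith
  have hrest : c.N - e ≤ κ * c.N := by nlinarith
  -- the size of all the heights in the fibre
  obtain ⟨Q, hQ⟩ : ∃ Q : ℝ, Q = K * ‖D‖ * ((2 * h + c3) / t) := ⟨_, rfl⟩
  have hQ0 : 0 ≤ Q := by rw [hQ]; positivity
  have hpt : ∀ y, c.φ y = c.φ w → |η D y| ≤ Q := by
    intro y hy
    have h5 := hKb D y
    have h6 : max 1 (u₀ y) ≤ (2 * h + c3) / t := by
      rw [le_div_iff₀ ht]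
      have h7 := hc2 y
      simp only [Pi.sub_apply, Pi.smul_apply, smul_eq_mul, Function.comp_apply] at h7
      rw [hy, ← hh] at h7
      have h8 := neg_abs_le c2
      rcases max_cases 1 (u₀ y) with ⟨h9, _⟩ | ⟨h9, _⟩
      · rw [h9, hc3]
        have := abs_nonneg c2
        linarith
      · rw [h9, hc3]
        linarith
    calc |η D y| ≤ K * ‖D‖ * max 1 (u₀ y) := h5
      _ ≤ K * ‖D‖ * ((2 * h + c3) / t) := mul_le_mul_of_nonneg_left h6 (by positivity)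
      _ = Q := hQ.symm
  have hRb : |R| ≤ κ * c.N * Q := by
    have h5 : |R| ≤ ∑ y ∈ c.fib (c.φ w) \ conj c w, (c.mult y : ℝ) * Q := by
      rw [hR]
      refine (Finset.abs_sum_le_sum_abs _ _).trans (Finset.sum_le_sum fun y hy => ?_)
      rw [abs_mul, Nat.abs_cast]
      refine mul_le_mul_of_nonneg_left (hpt y ?_) (Nat.cast_nonneg _)
      exact (c.mem_fib _ _).1 (Finset.mem_sdiff.1 hy).1
    rw [← Finset.sum_mul] at h5
    have h6 : ∑ y ∈ c.fib (c.φ w) \ conj c w, (c.mult y : ℝ) = c.N - e := by linarith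
    rw [h6] at h5
    exact h5.trans (mul_le_mul_of_nonneg_right hrest hQ0)
  have hwb : |(c.N - e) * η D w| ≤ κ * c.N * Q := by
    rw [abs_mul]
    have h5 : |(c.N : ℝ) - e| = c.N - e := abs_of_nonneg (by linarith)
    rw [h5]
    exact mul_le_mul hrest (hpt w rfl) (abs_nonneg _) (by positivity)
  have h6 : c.N * (η D w - L / v₀ * (h / t))
      = (e * η D w + R - t ^ W.dimPred * L * h) - R + (c.N - e) * η D w := by
    have h7 : (c.N : ℝ) * (L / v₀ * (h / t)) = t ^ W.dimPred * L * h := by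
      rw [hNt]
      field_simp
    rw [mul_sub, h7]
    ring
  have h7 : c.N * |η D w - L / v₀ * (h / t)| ≤ K2 * ‖D‖ + κ * c.N * Q + κ * c.N * Q := by
    have h8 : c.N * |η D w - L / v₀ * (h / t)| = |c.N * (η D w - L / v₀ * (h / t))| := by
      rw [abs_mul, Nat.abs_cast]
    rw [h8, h6]
    calc |(e * η D w + R - t ^ W.dimPred * L * h) - R + (c.N - e) * η D w|
        ≤ |(e * η D w + R - t ^ W.dimPred * L * h) - R| + |(c.N - e) * η D w| := abs_add_le _ _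
      _ ≤ (|e * η D w + R - t ^ W.dimPred * L * h| + |R|) + |(c.N - e) * η D w| := by
          gcongr
          exact abs_sub _ _
      _ ≤ _ := by linarith
  have hN1 : (1 : ℝ) ≤ c.N := by exact_mod_cast c.N_pos
  have h8 : c.N * |η D w - L / v₀ * (h / t)|
      ≤ c.N * ((4 * K * κ * (h / t) + (K2 + 2 * (κ * K * (c3 / t)) + 1)) * ‖D‖) := by
    refine h7.trans ?_
    have h9 : K2 * ‖D‖ ≤ c.N * (K2 * ‖D‖) := le_mul_of_one_le_left (by positivity) hN1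
    have h10 : κ * c.N * Q + κ * c.N * Q
        = c.N * ((4 * K * κ * (h / t) + 2 * (κ * K * (c3 / t))) * ‖D‖) := by
      rw [hQ]
      ring
    have h11 : 0 ≤ c.N * ‖D‖ := by positivity
    linarith
  exact le_of_mul_le_mul_left h8 hN

end Pool.Agent.Q8.ZA
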