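import Mathlib
import Pool.Agent.Q8.ZA.Coset

/-!
Fibres of a finite morphism to projective space, cosets and algebraic subgroups.
-/

set_option autoImplicit false

namespace Pool.Agent.Q8.ZA

open Pool.Agent.Q8.KS

variable {G : Type} [Group G]

lemma not_mem_of_height {W : Variety G} {A : AbelianVariety G} (j : GeneratingMap W A)
    (c : Cover W) {C h : ℝ} (hh : 0 < h) {H : AddSubgroup A.Pt} (hH : H ∈ A.Proper) :
    ∃ D ∈ A.Nef, ∀ x : A.Pt, W.deg (W.cls c.H) (W.cls (j.pic D)) * h ≤ C * A.hat D x → x ∉ H := by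
  obtain ⟨D, hD, hD0, hvan⟩ := A.proper_nef H hH
  refine ⟨D, hD, fun x hx hmem => ?_⟩
  rw [hvan x hmem, mul_zero] at hx
  have h2 : 0 < W.deg (W.cls c.H) (W.cls (j.pic D)) :=
    W.int_pos _ c.ample _ (j.nef D hD) (j.generates D hD hD0)
  have : 0 < W.deg (W.cls c.H) (W.cls (j.pic D)) * h := by positivity
  linarith

/-- **Cosets.** -/
theorem few_on_coset {W : Variety G} (E : Effective W) {A : AbelianVariety G}
    (j : GeneratingMap W A) (c : Cover W) :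
    ∃ Z ∈ E.closed, ∃ C : ℝ, 0 < C ∧
      (∀ t : c.P, C ≤ c.h t → (∀ y ∈ c.fib t, y ∉ Z) → ∀ γ : A.Pt,
        (∀ D ∈ A.Nef, AtLeast c t (c.N / ((W.dimPred : ℝ) + 2)) (fun w =>
          W.deg (W.cls c.H) (W.cls (j.pic D)) * c.h t ≤ C * A.hat D (j.pt w - γ))) ∧
        ∀ H ∈ A.Proper, AtLeast c t (c.N / ((W.dimPred : ℝ) + 2)) (fun w => j.pt w - γ ∉ H)) ∧
      (∀ w : W.Pt, (1 - 1 / ((W.dimPred : ℝ) + 2)) * c.N < c.relDeg w → C ≤ c.h (c.φ w) →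
        (∀ y ∈ c.fib (c.φ w), y ∉ Z) → ∀ γ : A.Pt, DefinedOver (G := G) γ (c.φ w) →
          (∀ D ∈ A.Nef, W.deg (W.cls c.H) (W.cls (j.pic D)) * c.h (c.φ w) ≤
            C * A.hat D (j.pt w - γ)) ∧ ∀ H ∈ A.Proper, j.pt w - γ ∉ H) ∧
      ∀ e : ℕ, {w : W.Pt | ((1 - 1 / ((W.dimPred : ℝ) + 2)) * c.N < c.relDeg w ∧
        (∀ y ∈ c.fib (c.φ w), y ∉ Z) ∧ ∃ γ : A.Pt, DefinedOver (G := G) γ (c.φ w) ∧
          ∃ H ∈ A.Proper, j.pt w - γ ∈ H) ∧ (MulAction.orbit G (c.φ w)).ncard ≤ e}.Finite := by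
  obtain ⟨Z, hZ, C, hC, hall⟩ := fibre_dispersed E j c
  have key : ∀ w : W.Pt, (1 - 1 / ((W.dimPred : ℝ) + 2)) * c.N < c.relDeg w → C ≤ c.h (c.φ w) →
      (∀ y ∈ c.fib (c.φ w), y ∉ Z) → ∀ γ : A.Pt, DefinedOver (G := G) γ (c.φ w) →
        (∀ D ∈ A.Nef, W.deg (W.cls c.H) (W.cls (j.pic D)) * c.h (c.φ w) ≤
          C * A.hat D (j.pt w - γ)) ∧ ∀ H ∈ A.Proper, j.pt w - γ ∉ H := by
    intro w hw hhw hwZ γ hγ
    have hh0 : 0 < c.h (c.φ w) := lt_of_lt_of_le hC hhw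
    have h1 : ∀ D ∈ A.Nef, W.deg (W.cls c.H) (W.cls (j.pic D)) * c.h (c.φ w) ≤
        C * A.hat D (j.pt w - γ) := by
      intro D hD
      refine rel_of_share c (fun y => W.deg (W.cls c.H) (W.cls (j.pic D)) * c.h (c.φ w) ≤
        C * A.hat D (j.pt y - γ)) (fun g hg y hy => ?_) ((hall _ hhw hwZ D hD).1 γ) ?_
      · have e1 : j.pt (g • y) - γ = g • (j.pt y - γ) := by
          rw [smul_sub, j.pt_smul, hγ g hg]
        show _ ≤ C * A.hat D (j.pt (g • y) - γ)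
        rw [e1, A.hat_galois]
        exact hy
      · refine lt_of_le_of_lt (le_of_eq ?_) hw
        ring
    refine ⟨h1, fun H hH => ?_⟩
    obtain ⟨D, hD, hx⟩ := not_mem_of_height j c (C := C) hh0 hH
    exact hx _ (h1 D hD)
  refine ⟨Z, hZ, C, hC, fun t ht htZ γ => ⟨fun D hD => (hall t ht htZ D hD).1 γ,
    fun H hH => ?_⟩, key, fun e => ?_⟩
  · have hh0 : 0 < c.h t := lt_of_lt_of_le hC ht
    obtain ⟨D, hD, hx⟩ := not_mem_of_height j c (C := C) hh0 hH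
    obtain ⟨S, hS, hSP, hp⟩ := (hall t ht htZ D hD).1 γ
    exact ⟨S, hS, fun w hw => hx _ (hSP w hw), hp⟩
  · refine finite_of_height c {w | (1 - 1 / ((W.dimPred : ℝ) + 2)) * c.N < c.relDeg w ∧
      (∀ y ∈ c.fib (c.φ w), y ∉ Z) ∧ ∃ γ : A.Pt, DefinedOver (G := G) γ (c.φ w) ∧
        ∃ H ∈ A.Proper, j.pt w - γ ∈ H} C ?_ e
    rintro w ⟨hw, hwZ, γ, hγ, H, hH, hmem⟩
    by_contra hlt
    exact (key w hw (not_lt.1 hlt) hwZ γ hγ).2 H hH hmem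

/-- **Algebraic subgroups.** -/
theorem few_on_subgroup {W : Variety G} (E : Effective W) {A : AbelianVariety G}
    (j : GeneratingMap W A) (c : Cover W) :
    ∃ Z ∈ E.closed, ∃ C : ℝ, 0 < C ∧
      (∀ t : c.P, C ≤ c.h t → (∀ y ∈ c.fib t, y ∉ Z) → ∀ H ∈ A.Proper,
        AtLeast c t (c.N / ((W.dimPred : ℝ) + 1)) (fun w => j.pt w ∉ H)) ∧
      (∀ w : W.Pt, (1 - 1 / ((W.dimPred : ℝ) + 1)) * c.N < c.relDeg w → C ≤ c.h (c.φ w) →
        (∀ y ∈ c.fib (c.φ w), y ∉ Z) →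
          (∀ D ∈ A.Nef, W.deg (W.cls c.H) (W.cls (j.pic D)) * c.h (c.φ w) ≤
            C * A.hat D (j.pt w)) ∧ ∀ H ∈ A.Proper, j.pt w ∉ H) ∧
      ∀ e : ℕ, {w : W.Pt | ((1 - 1 / ((W.dimPred : ℝ) + 1)) * c.N < c.relDeg w ∧
        (∀ y ∈ c.fib (c.φ w), y ∉ Z) ∧ ∃ H ∈ A.Proper, j.pt w ∈ H) ∧
          (MulAction.orbit G (c.φ w)).ncard ≤ e}.Finite := by
  obtain ⟨Z, hZ, C, hC, hall⟩ := fibre_dispersed E j c
  have key : ∀ w : W.Pt, (1 - 1 / ((W.dimPred : ℝ) + 1)) * c.N < c.relDeg w → C ≤ c.h (c.φ w) →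
      (∀ y ∈ c.fib (c.φ w), y ∉ Z) →
        (∀ D ∈ A.Nef, W.deg (W.cls c.H) (W.cls (j.pic D)) * c.h (c.φ w) ≤
          C * A.hat D (j.pt w)) ∧ ∀ H ∈ A.Proper, j.pt w ∉ H := by
    intro w hw hhw hwZ
    have hh0 : 0 < c.h (c.φ w) := lt_of_lt_of_le hC hhw
    have h1 : ∀ D ∈ A.Nef, W.deg (W.cls c.H) (W.cls (j.pic D)) * c.h (c.φ w) ≤
        C * A.hat D (j.pt w) := by
      intro D hD
      refine rel_of_share c (fun y => W.deg (W.cls c.H) (W.cls (j.pic D)) * c.h (c.φ w) ≤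
        C * A.hat D (j.pt y)) (fun g _ y hy => ?_) ((hall _ hhw hwZ D hD).2) ?_
      · show _ ≤ C * A.hat D (j.pt (g • y))
        rw [j.pt_smul, A.hat_galois]
        exact hy
      · refine lt_of_le_of_lt (le_of_eq ?_) hw
        ring
    refine ⟨h1, fun H hH => ?_⟩
    obtain ⟨D, hD, hx⟩ := not_mem_of_height j c (C := C) hh0 hH
    exact hx _ (h1 D hD)
  refine ⟨Z, hZ, C, hC, fun t ht htZ H hH => ?_, key, fun e => ?_⟩
  · have hh0 : 0 < c.h t := lt_of_lt_of_le hC ht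
    obtain ⟨D, hD, hx⟩ := not_mem_of_height j c (C := C) hh0 hH
    obtain ⟨S, hS, hSP, hp⟩ := (hall t ht htZ D hD).2
    exact ⟨S, hS, fun w hw => hx _ (hSP w hw), hp⟩
  · refine finite_of_height c {w | (1 - 1 / ((W.dimPred : ℝ) + 1)) * c.N < c.relDeg w ∧
      (∀ y ∈ c.fib (c.φ w), y ∉ Z) ∧ ∃ H ∈ A.Proper, j.pt w ∈ H} C ?_ e
    rintro w ⟨hw, hwZ, H, hH, hmem⟩
    by_contra hlt
    exact (key w hw (not_lt.1 hlt) hwZ).2 H hH hmem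

end Pool.Agent.Q8.ZA
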