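import Mathlib
import Pool.Agent.Q8.KS.Setting

set_option autoImplicit false

namespace Pool.Agent.Q8.ZA

open Pool.Agent.Q8.KS

variable {G : Type} [Group G]

/-- The modular curve `Y(1)` over a number field `K` with absolute Galois group `G`. -/
structure ModularCurve (G : Type) [Group G] where
  /-- the points of `Y(1)` over the algebraic closure of `K`: the `j`-invariants -/
  Pt : Type
  [act : MulAction G Pt]
  /-- the absolute logarithmic height of the `j`-invariant -/
  h : Pt → ℝ
  /-- there is a cyclic isogeny between elliptic curves with these `j`-invariants, i.e.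
  `Φ_M(x, y) = 0` for some `M ≥ 1` -/
  Isogenous : Pt → Pt → Prop
  /-- `x` is a singular modulus -/
  CM : Pt → Prop
  /-- the isogeny estimates of Masser and Wüstholz with Faltings' formula for the heights of
  isogenous curves: the heights of isogenous `j`-invariants of bounded degree over `K` differ by
  little -/
  isogeny : ∀ e : ℕ, ∃ B : ℝ, ∀ x y : Pt, Isogenous x y →
    (MulAction.orbit G x).ncard ≤ e → (MulAction.orbit G y).ncard ≤ e →
      |h x - h y| ≤ B * (1 + Real.log (max 1 (h x)))
  /-- the singular moduli of bounded degree have bounded height -/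
  cm : ∀ e : ℕ, ∃ B : ℝ, ∀ x : Pt, CM x → (MulAction.orbit G x).ncard ≤ e → h x ≤ B

attribute [instance] ModularCurve.act

/-- A projective variety `W` with an open subvariety `U` and a morphism `W → (ℙ¹)^n` over `K`
which maps `U` to `Y(1)^n`, e.g. the closure `W` in `(ℙ¹)^n` of a subvariety `U` of `Y(1)^n`. -/
structure ModularMap (W : Variety G) (Y : ModularCurve G) (n : ℕ) where
  /-- the points of `U` -/
  U : Set W.Pt
  /-- the coordinates of the points of `U` -/
  x : W.Pt → Fin n → Y.Pt
  x_smul : ∀ (g : G), ∀ w ∈ U, ∀ i, x (g • w) i = g • x w i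
  /-- the pullback of `O(1)` by the `i`-th coordinate `W → ℙ¹` -/
  D : Fin n → W.Pic
  /-- the height of the `i`-th coordinate -/
  height : Fin n → W.Pt → ℝ
  isHeight : ∀ i, W.IsHeight (D i) (height i)
  height_galois : ∀ i (g : G) (w : W.Pt), height i (g • w) = height i w
  height_eq : ∀ w ∈ U, ∀ i, height i w = Y.h (x w i)

/-- The point `w` lies in a special subvariety of `Y(1)^n` other than `Y(1)^n`: a coordinate is a
singular modulus or two coordinates are isogenous. -/
def ModularMap.InProperSpecial {W : Variety G} {Y : ModularCurve G} {n : ℕ}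
    (M : ModularMap W Y n) (w : W.Pt) : Prop :=
  (∃ i, Y.CM (M.x w i)) ∨ ∃ i k, i ≠ k ∧ Y.Isogenous (M.x w i) (M.x w k)

end Pool.Agent.Q8.ZA
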