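import Mathlib
import Pool.Agent.Q8.ZA.ModSetting
import Pool.Agent.Q8.ZA.Approx
import Pool.Agent.Q8.ZA.Main

set_option autoImplicit false

open Filter Topology

namespace Pool.Agent.Q8.ZA

open Pool.Agent.Q8.KS

variable {G : Type} [Group G]

lemma log_small (δ B A : ℝ) (hδ : 0 < δ) :
    ∃ X : ℝ, ∀ h : ℝ, X ≤ h → |B| * (1 + Real.log (max 1 (A * (h + 1)))) + A < δ * h := by
  -- the logarithm grows more slowly than any linear function
  obtain ⟨A', hA'⟩ : ∃ A' : ℝ, A' = |A| + 1 := ⟨_, rfl⟩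
  have hA0 : 0 < A' := by rw [hA']; positivity
  have h1 : Tendsto (fun h : ℝ => Real.log h / h) atTop (𝓝 0) := by
    have := Real.isLittleO_log_id_atTop.tendsto_div_nhds_zero
    exact this
  have hε : 0 < δ / (2 * (|B| + 1)) := by positivity
  have h2 := h1.eventually (eventually_lt_nhds hε)
  obtain ⟨X, hX⟩ := (h2.and (eventually_gt_atTop (1 : ℝ))).exists_forall_of_atTop
  refine ⟨max (max X 1) ((|B| * (1 + Real.log (2 * A')) + A') * (2 / δ) + 1), fun h hh => ?_⟩
  have hh1 : X ≤ h := (le_max_left _ _).trans ((le_max_left _ _).trans hh)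
  have hh2 : 1 ≤ h := (le_max_right _ _).trans ((le_max_left _ _).trans hh)
  have hh3 : (|B| * (1 + Real.log (2 * A')) + A') * (2 / δ) + 1 ≤ h := (le_max_right _ _).trans hh
  have h0 : 0 < h := by linarith
  obtain ⟨h4, _⟩ := hX h hh1
  rw [div_lt_iff₀ h0] at h4
  have hB := abs_nonneg B
  have h5 : max 1 (A * (h + 1)) ≤ (2 * A') * h := by
    refine max_le ?_ ?_
    · have : 1 ≤ A' := by rw [hA']; linarith [abs_nonneg A]
      nlinarith
    · have h6 : A ≤ A' := by rw [hA']; linarith [le_abs_self A]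
      have h7 : A * (h + 1) ≤ A' * (h + 1) := mul_le_mul_of_nonneg_right h6 (by linarith)
      nlinarith
  have h6 : Real.log (max 1 (A * (h + 1))) ≤ Real.log (2 * A') + Real.log h := by
    rw [← Real.log_mul (by positivity) (by positivity)]
    exact Real.log_le_log (lt_of_lt_of_le one_pos (le_max_left _ _)) h5
  have h7 : |B| * (1 + Real.log (max 1 (A * (h + 1))))
      ≤ |B| * (1 + Real.log (2 * A')) + |B| * Real.log h := by
    nlinarith
  have h8 : |B| * Real.log h ≤ δ / 2 * h := by
    have h9 : |B| * Real.log h ≤ |B| * (δ / (2 * (|B| + 1)) * h) :=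
      mul_le_mul_of_nonneg_left h4.le hB
    have h10 : |B| * (δ / (2 * (|B| + 1)) * h) ≤ (|B| + 1) * (δ / (2 * (|B| + 1)) * h) := by
      refine mul_le_mul_of_nonneg_right (by linarith) (by positivity)
    have h11 : (|B| + 1) * (δ / (2 * (|B| + 1)) * h) = δ / 2 * h := by
      field_simp
    linarith
  have h9 : |B| * (1 + Real.log (2 * A')) + A' < δ / 2 * h := by
    have h10 : (|B| * (1 + Real.log (2 * A')) + A') * (2 / δ) < h := by linarith
    have h11 := mul_lt_mul_of_pos_left h10 (by positivity : 0 < δ / 2)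
    have h12 : δ / 2 * ((|B| * (1 + Real.log (2 * A')) + A') * (2 / δ))
        = |B| * (1 + Real.log (2 * A')) + A' := by
      field_simp
    linarith
  have h10 : A ≤ A' := by rw [hA']; linarith [le_abs_self A]
  linarith

/-- The degree over `K` of a point of `W`. -/
lemma deg_point {W : Variety G} (c : Cover W) (w : W.Pt) (e : ℕ)
    (he : (MulAction.orbit G (c.φ w)).ncard ≤ e) :
    (MulAction.orbit G w).Finite ∧ (MulAction.orbit G w).ncard ≤ e * c.N := by
  classical
  have hfin := c.orbit_finite (c.φ w)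
  have hsub : MulAction.orbit G w ⊆ (hfin.toFinset.biUnion c.fib : Set W.Pt) := by
    rintro _ ⟨g, rfl⟩
    rw [Finset.mem_coe, Finset.mem_biUnion]
    refine ⟨g • c.φ w, ?_, ?_⟩
    · rw [Set.Finite.mem_toFinset]
      exact ⟨g, rfl⟩
    · rw [c.mem_fib]
      exact c.φ_smul g w
  have hfw : (MulAction.orbit G w).Finite := (Finset.finite_toSet _).subset hsub
  refine ⟨hfw, ?_⟩
  have h1 : (MulAction.orbit G w).ncard ≤ (hfin.toFinset.biUnion c.fib).card := by
    rw [← Set.ncard_coe_finset]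
    exact Set.ncard_le_ncard hsub (Finset.finite_toSet _)
  have h2 : ∀ t ∈ hfin.toFinset, (c.fib t).card ≤ c.N := by
    intro t _
    rw [← c.sum_mult t, Finset.card_eq_sum_ones]
    exact Finset.sum_le_sum fun y _ => c.mult_pos y
  have h3 := Finset.card_biUnion_le_card_mul hfin.toFinset c.fib c.N h2
  have h4 : hfin.toFinset.card = (MulAction.orbit G (c.φ w)).ncard := by
    rw [Set.ncard_eq_toFinset_card _ hfin]
  calc (MulAction.orbit G w).ncard ≤ (hfin.toFinset.biUnion c.fib).card := h1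
    _ ≤ hfin.toFinset.card * c.N := h3
    _ ≤ e * c.N := by
        rw [h4]
        exact Nat.mul_le_mul_right _ he

/-- **Points of large relative degree in `Y(1)^n`.** -/
theorem modular {W : Variety G} {Y : ModularCurve G} {n : ℕ} (M : ModularMap W Y n)
    {H₀ : W.Pic} (hH₀ : W.IsAmple H₀)
    (hpos : ∀ i, 0 < W.deg (W.cls H₀) (W.cls (M.D i)))
    (hne : ∀ i k, i ≠ k → W.deg (W.cls H₀) (W.cls (M.D i)) ≠ W.deg (W.cls H₀) (W.cls (M.D k))) :
    ∃ κ : ℝ, 0 < κ ∧ ∀ c : Cover W, (∃ t : ℝ, 0 < t ∧ W.cls c.H = t • W.cls H₀) →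
      ∀ e : ℕ, {w : W.Pt | (w ∈ M.U ∧ (1 - κ) * c.N < c.relDeg w ∧
        (MulAction.orbit G (c.φ w)).ncard ≤ e) ∧ M.InProperSpecial w}.Finite := by
  classical
  -- the linear family of the heights of the coordinates
  let P : (Fin n → ℝ) →ₗ[ℝ] W.Pic :=
    { toFun := fun a => ∑ i, a i • M.D i
      map_add' := by
        intro a b
        simp only [Pi.add_apply, add_smul]
        rw [Finset.sum_add_distrib]
      map_smul' := by
        intro r a
        simp only [Pi.smul_apply, smul_eq_mul, RingHom.id_apply, mul_smul]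
        rw [Finset.smul_sum] }
  let η : (Fin n → ℝ) →ₗ[ℝ] (W.Pt → ℝ) :=
    { toFun := fun a => ∑ i, a i • M.height i
      map_add' := by
        intro a b
        simp only [Pi.add_apply, add_smul]
        rw [Finset.sum_add_distrib]
      map_smul' := by
        intro r a
        simp only [Pi.smul_apply, smul_eq_mul, RingHom.id_apply, mul_smul]
        rw [Finset.smul_sum] }
  have hη : ∀ a, W.IsHeight (P a) (η a) := by
    intro a
    show W.height (∑ i, a i • M.D i) = (bdd W.Pt).mkQ (∑ i, a i • M.height i)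
    rw [map_sum, map_sum]
    refine Finset.sum_congr rfl fun i _ => ?_
    rw [map_smul, map_smul]
    congr 1
    exact M.isHeight i
  have hinv : ∀ (a : Fin n → ℝ) (g : G) (x : W.Pt), η a (g • x) = η a x := by
    intro a g x
    show (∑ i, a i • M.height i) (g • x) = (∑ i, a i • M.height i) x
    simp only [Finset.sum_apply, Pi.smul_apply]
    refine Finset.sum_congr rfl fun i _ => ?_
    rw [M.height_galois]
  have hηi : ∀ i w, η (Pi.single i 1) w = M.height i w := by
    intro i w
    show (∑ k, (Pi.single i 1 : Fin n → ℝ) k • M.height k) w = _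
    rw [Finset.sum_eq_single i]
    · simp
    · intro k _ hk
      rw [Pi.single_eq_of_ne hk, zero_smul]
    · intro h
      exact absurd (Finset.mem_univ i) h
  have hPi : ∀ i, P (Pi.single i 1) = M.D i := by
    intro i
    show (∑ k, (Pi.single i 1 : Fin n → ℝ) k • M.D k) = _
    rw [Finset.sum_eq_single i]
    · simp
    · intro k _ hk
      rw [Pi.single_eq_of_ne hk, zero_smul]
    · intro h
      exact absurd (Finset.mem_univ i) h
  obtain ⟨K₀, hK₀, happ⟩ := approx P η hη hinv hH₀
  obtain ⟨v₀, hv₀⟩ : ∃ v₀ : ℝ, v₀ = W.deg (W.cls H₀) (W.cls H₀) := ⟨_, rfl⟩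
  obtain ⟨a, ha⟩ : ∃ a : Fin n → ℝ, a = fun i => W.deg (W.cls H₀) (W.cls (M.D i)) / v₀ := ⟨_, rfl⟩
  -- if there is a cover then `v₀ > 0`
  by_cases hv : 0 < v₀
  swap
  · refine ⟨1, one_pos, ?_⟩
    rintro c ⟨t, ht, hct⟩
    exfalso
    have hN : (0 : ℝ) < c.N := by exact_mod_cast c.N_pos
    have hNt : (c.N : ℝ) = t ^ W.dimPred * t * v₀ := by
      rw [← c.deg_H, hct, deg_smul, map_smul, smul_eq_mul, hv₀]
      ring
    have h1 : 0 < t ^ W.dimPred * t * v₀ := by rw [← hNt]; exact hN
    exact hv (pos_of_mul_pos_right h1 (by positivity))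
  have hapos : ∀ i, 0 < a i := by
    intro i
    rw [ha]
    exact div_pos (hpos i) hv
  have hane : ∀ i k, i ≠ k → a i ≠ a k := by
    intro i k hik h
    rw [ha] at h
    have h1 : W.deg (W.cls H₀) (W.cls (M.D i)) / v₀ = W.deg (W.cls H₀) (W.cls (M.D k)) / v₀ := h
    exact hne i k hik ((div_left_inj' hv.ne').1 h1)
  -- the gap
  obtain ⟨δ, hδ, hδ1, hδ2⟩ : ∃ δ : ℝ, 0 < δ ∧ (∀ i, δ ≤ a i) ∧
      ∀ i k, i ≠ k → δ ≤ |a i - a k| := by
    let S : Finset ℝ := insert 1 ((Finset.univ.image a) ∪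
      ((Finset.univ : Finset (Fin n × Fin n)).filter (fun p => p.1 ≠ p.2)).image
        fun p => |a p.1 - a p.2|)
    have hS : S.Nonempty := ⟨1, Finset.mem_insert_self _ _⟩
    refine ⟨S.min' hS, ?_, fun i => ?_, fun i k hik => ?_⟩
    · have := S.min'_mem hS
      rw [Finset.mem_insert, Finset.mem_union, Finset.mem_image, Finset.mem_image] at this
      rcases this with h | ⟨i, _, h⟩ | ⟨p, hp, h⟩
      · rw [h]; exact one_pos
      · rw [← h]; exact hapos i
      · rw [← h, abs_pos, sub_ne_zero]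
        exact hane _ _ (Finset.mem_filter.1 hp).2
    · refine S.min'_le _ ?_
      rw [Finset.mem_insert, Finset.mem_union]
      exact Or.inr (Or.inl (Finset.mem_image_of_mem _ (Finset.mem_univ i)))
    · refine S.min'_le _ ?_
      rw [Finset.mem_insert, Finset.mem_union]
      refine Or.inr (Or.inr (Finset.mem_image.2 ⟨(i, k), ?_, rfl⟩))
      rw [Finset.mem_filter]
      exact ⟨Finset.mem_univ _, hik⟩
  refine ⟨δ / (8 * K₀), by positivity, ?_⟩
  obtain ⟨κ, hκ⟩ : ∃ κ : ℝ, κ = δ / (8 * K₀) := ⟨_, rfl⟩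
  rw [← hκ]
  have hκ0 : 0 < κ := by rw [hκ]; positivity
  have hKκ : K₀ * κ = δ / 8 := by
    rw [hκ]
    field_simp
  rintro c ⟨t, ht, hct⟩ e
  obtain ⟨C, hC, hb⟩ := happ κ hκ0 c t ht hct
  obtain ⟨B1, hB1⟩ := Y.isogeny (e * c.N)
  obtain ⟨B2, hB2⟩ := Y.cm (e * c.N)
  obtain ⟨T, hT⟩ : ∃ T : ℝ, T = ∑ i, a i + δ + 2 * C + |B2| + 1 := ⟨_, rfl⟩
  have hsum0 : 0 ≤ ∑ i, a i := Finset.sum_nonneg fun i _ => (hapos i).le
  have hai : ∀ i, a i ≤ ∑ i, a i := fun i =>
    Finset.single_le_sum (fun k _ => (hapos k).le) (Finset.mem_univ i)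
  have hT1 : 1 ≤ T := by
    rw [hT]
    have := abs_nonneg B2
    linarith
  obtain ⟨X, hX⟩ := log_small (δ / 2) B1 T (by positivity)
  -- the heights of the bad points are bounded
  have hbad : ∀ w ∈ {w : W.Pt | (w ∈ M.U ∧ (1 - κ) * c.N < c.relDeg w ∧
      (MulAction.orbit G (c.φ w)).ncard ≤ e) ∧ M.InProperSpecial w},
      c.h (c.φ w) < t * (max (max X 0) (4 * T / δ) + 1) := by
    rintro w ⟨⟨hwU, hw, hwe⟩, hspec⟩
    by_contra hlt
    have hlt := not_lt.1 hlt
    obtain ⟨h, hh⟩ : ∃ h : ℝ, h = c.h (c.φ w) / t := ⟨_, rfl⟩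
    have hh1 : max (max X 0) (4 * T / δ) + 1 ≤ h := by
      rw [hh, le_div_iff₀ ht]
      linarith
    have hX1 : X ≤ h := by
      have := (le_max_left X 0).trans (le_max_left (max X 0) (4 * T / δ))
      linarith
    have hh0 : 1 ≤ h := by
      have := (le_max_right X 0).trans (le_max_left (max X 0) (4 * T / δ))
      linarith
    have hT2 : 4 * T / δ ≤ h := by
      have := le_max_right (max X 0) (4 * T / δ)
      linarith
    have hT3 : 4 * T ≤ δ * h := by
      rw [div_le_iff₀ hδ] at hT2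
      linarith
    have hch : 0 ≤ c.h (c.φ w) := by
      have h1 : c.h (c.φ w) = h * t := by
        rw [hh]
        field_simp
      rw [h1]
      positivity
    have hcoord : ∀ i, |Y.h (M.x w i) - a i * h| ≤ δ / 8 * h + C := by
      intro i
      have h1 := hb w hw hch (Pi.single i 1)
      rw [hηi, hPi, ← hv₀, ← hh, hKκ] at h1
      have h2 : ‖(Pi.single i 1 : Fin n → ℝ)‖ = 1 := by
        rw [Pi.norm_single, norm_one]
      rw [h2, mul_one, M.height_eq w hwU i] at h1
      have h3 : W.deg (W.cls H₀) (W.cls (M.D i)) / v₀ = a i := by rw [ha]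
      rw [h3] at h1
      exact h1
    obtain ⟨hofin, hodeg⟩ := deg_point c w e hwe
    have hodeg' : ∀ i, (MulAction.orbit G (M.x w i)).ncard ≤ e * c.N := by
      intro i
      have h1 : MulAction.orbit G (M.x w i) ⊆ (fun y => M.x y i) '' MulAction.orbit G w := by
        rintro _ ⟨g, rfl⟩
        exact ⟨g • w, ⟨g, rfl⟩, M.x_smul g w hwU i⟩
      have h2 := Set.ncard_le_ncard h1 (hofin.image _)
      exact (h2.trans (Set.ncard_image_le hofin)).trans hodeg
    have hTC : C ≤ T := by
      rw [hT]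
      have := abs_nonneg B2
      linarith
    rcases hspec with ⟨i, hcm⟩ | ⟨i, k, hik, hiso⟩
    · have h1 := hB2 _ hcm (hodeg' i)
      have h2 := (abs_le.1 (hcoord i)).1
      have h3 : δ * h ≤ a i * h := mul_le_mul_of_nonneg_right (hδ1 i) (by linarith)
      have h4 : B2 ≤ T := by
        rw [hT]
        have := le_abs_self B2
        linarith
      nlinarith
    · have h1 := hB1 _ _ hiso (hodeg' i) (hodeg' k)
      have h2 := abs_le.1 (hcoord i)
      have h3 := abs_le.1 (hcoord k)
      have h4 : δ * h ≤ |a i * h - a k * h| := by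
        rw [← sub_mul, abs_mul, abs_of_pos (by linarith : 0 < h)]
        exact mul_le_mul_of_nonneg_right (hδ2 i k hik) (by linarith)
      have h5 : |a i * h - a k * h| ≤ |Y.h (M.x w i) - Y.h (M.x w k)| + 2 * (δ / 8 * h + C) := by
        have h6 : a i * h - a k * h = (Y.h (M.x w i) - Y.h (M.x w k))
            + (-(Y.h (M.x w i) - a i * h) + (Y.h (M.x w k) - a k * h)) := by ring
        rw [h6]
        refine (abs_add_le _ _).trans ?_
        have h7 : |-(Y.h (M.x w i) - a i * h) + (Y.h (M.x w k) - a k * h)|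
            ≤ 2 * (δ / 8 * h + C) := by
          refine (abs_add_le _ _).trans ?_
          rw [abs_neg]
          linarith [hcoord i, hcoord k]
        linarith
      have h6 : max 1 (Y.h (M.x w i)) ≤ max 1 (T * (h + 1)) := by
        refine max_le (le_max_left _ _) ?_
        refine le_trans ?_ (le_max_right _ _)
        have h7 : Y.h (M.x w i) ≤ a i * h + (δ / 8 * h + C) := by linarith [h2.2]
        have h8 : a i * h ≤ (∑ i, a i) * h := mul_le_mul_of_nonneg_right (hai i) (by linarith)
        have h9 : (∑ i, a i) * h + δ * h + C ≤ T * (h + 1) := by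
          rw [hT]
          have := abs_nonneg B2
          nlinarith
        nlinarith
      have h7 : Real.log (max 1 (Y.h (M.x w i))) ≤ Real.log (max 1 (T * (h + 1))) :=
        Real.log_le_log (lt_of_lt_of_le one_pos (le_max_left _ _)) h6
      have h8 : B1 * (1 + Real.log (max 1 (Y.h (M.x w i))))
          ≤ |B1| * (1 + Real.log (max 1 (T * (h + 1)))) := by
        have h9 : 0 ≤ Real.log (max 1 (Y.h (M.x w i))) := Real.log_nonneg (le_max_left _ _)
        calc B1 * (1 + Real.log (max 1 (Y.h (M.x w i))))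
            ≤ |B1| * (1 + Real.log (max 1 (Y.h (M.x w i)))) :=
              mul_le_mul_of_nonneg_right (le_abs_self _) (by linarith)
          _ ≤ |B1| * (1 + Real.log (max 1 (T * (h + 1)))) :=
              mul_le_mul_of_nonneg_left (by linarith) (abs_nonneg _)
      have h9 := hX h hX1
      have h10 : 2 * C ≤ T := by
        rw [hT]
        have := abs_nonneg B2
        linarith
      nlinarith
  have hfin := finite_of_height c _ _ hbad e
  refine hfin.subset ?_
  rintro w ⟨⟨hw1, hw2, hw3⟩, hw4⟩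
  exact ⟨⟨⟨hw1, hw2, hw3⟩, hw4⟩, hw3⟩

end Pool.Agent.Q8.ZA
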