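import Mathlib
import Pool.Agent.Q8.ZA.Mod
import Pool.Agent.Q8.ZA.Share
import Pool.Agent.Q8.ZA.Coset

/-!
The share of the points of a fibre which are not in the Hodge locus of a family of products of
elliptic curves.
-/

set_option autoImplicit false

open Filter Topology

namespace Pool.Agent.Q8.ZA

open Pool.Agent.Q8.KS

variable {G : Type} [Group G]

lemma exists_pos_le {ι : Type} [Fintype ι] (f : ι → ℝ) (hf : ∀ i, 0 < f i) :
    ∃ ε : ℝ, 0 < ε ∧ ∀ i, ε ≤ f i := by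
  classical
  rcases isEmpty_or_nonempty ι with h | h
  · exact ⟨1, one_pos, fun i => (h.false i).elim⟩
  · obtain ⟨i, _, hi⟩ := Finset.exists_min_image Finset.univ f Finset.univ_nonempty
    exact ⟨f i, hf i, fun k => hi k (Finset.mem_univ k)⟩

/-- An upper bound for the height of one nef class of positive degree. -/
lemma upper_one {W : Variety G} (E : Effective W) (c : Cover W) {D : W.Pic}
    (hD : W.cls D ∈ W.Nef) {u : W.Pt → ℝ} (hu : W.IsHeight D u)
    (hpos : 0 < W.deg (W.cls c.H) (W.cls D)) {ε : ℝ} (hε : 0 < ε) :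
    ∃ Z ∈ E.closed, ∃ C : ℝ, 0 < C ∧ ∀ y, y ∉ Z → C ≤ c.h (c.φ y) →
      u y ≤ ((W.dimPred : ℝ) + 1 + ε) * (W.deg (W.cls c.H) (W.cls D) / c.N * c.h (c.φ y)) := by
  have hS : IsCone (Set.Ici (0 : ℝ)) :=
    { closed := isClosed_Ici
      zero := Set.mem_Ici.2 le_rfl
      add := fun x hx y hy => Set.mem_Ici.2 (add_nonneg hx hy)
      smul := fun a ha x hx => Set.mem_Ici.2 (mul_nonneg ha hx) }
  obtain ⟨Z, hZ, C, hC, h⟩ := upper_siu E hS (LinearMap.toSpanSingleton ℝ W.Pic D)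
    (LinearMap.toSpanSingleton ℝ (W.Pt → ℝ) u)
    (fun a => by
      show W.height (a • D) = (bdd W.Pt).mkQ (a • u)
      rw [map_smul, map_smul]
      congr 1)
    (fun a ha => by
      show W.cls (a • D) ∈ W.Nef
      rw [map_smul]
      exact W.nef_cone.smul a ha _ hD)
    (fun a _ ha0 h0 => by
      have h1 : W.cls (a • D) = 0 := h0
      rw [map_smul] at h1
      rcases smul_eq_zero.1 h1 with h2 | h2
      · exact ha0 h2
      · rw [h2, map_zero] at hpos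
        exact lt_irrefl _ hpos) c hε
  refine ⟨Z, hZ, C, hC, fun y hy hCy => ?_⟩
  have h1 := h y hy hCy 1 (Set.mem_Ici.2 zero_le_one)
  have e1 : (LinearMap.toSpanSingleton ℝ (W.Pt → ℝ) u) 1 y = u y := by
    simp
  have e2 : (LinearMap.toSpanSingleton ℝ W.Pic D) 1 = D := by
    simp
  rw [e1, e2] at h1
  exact h1

/-- A lower bound for the height of a nef class. -/
lemma lower_one {W : Variety G} (c : Cover W) {D : W.Pic}
    (hD : W.cls D ∈ W.Nef) {u : W.Pt → ℝ} (hu : W.IsHeight D u) {ε : ℝ} (hε : 0 < ε) :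
    ∃ C : ℝ, ∀ y, -(ε * c.h (c.φ y)) - C ≤ u y := by
  have h1 : W.cls (ε • c.H + D) ∈ interior W.Nef := by
    rw [map_add, map_smul]
    exact ample_add W.nef_cone (ample_smul W.nef_cone c.ample hε) hD
  obtain ⟨C, hC⟩ := W.ample_height _ h1 _ (height_add W (height_smul W ε c.height_H) hu)
  refine ⟨-C, fun y => ?_⟩
  have := hC y
  simp only [Pi.add_apply, Pi.smul_apply, smul_eq_mul, Function.comp_apply] at this
  linarith

/-- The share for a difference of two heights. -/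
lemma share_diff {W : Variety G} (E : Effective W) (c : Cover W) {D D' : W.Pic}
    (hD : W.cls D ∈ W.Nef) (hD' : W.cls D' ∈ W.Nef) {u u' : W.Pt → ℝ} (hu : W.IsHeight D u)
    (hu' : W.IsHeight D' u') {ρ : ℝ} (hρ : 0 < ρ)
    (hpos : 0 < W.deg (W.cls c.H) (W.cls D))
    (hlt : ρ * ((W.dimPred : ℝ) + 1) <
      1 - W.deg (W.cls c.H) (W.cls D') / W.deg (W.cls c.H) (W.cls D)) :
    ∃ Z ∈ E.closed, ∃ C ε : ℝ, 0 < C ∧ 0 < ε ∧ ∀ t : c.P, C ≤ c.h t → (∀ y ∈ c.fib t, y ∉ Z) →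
      AtLeast c t (ρ * c.N) (fun w => ε * c.h t ≤ u w - u' w) := by
  classical
  have hN : (0 : ℝ) < c.N := by exact_mod_cast c.N_pos
  obtain ⟨δ, hδd⟩ : ∃ δ : ℝ, δ = W.deg (W.cls c.H) (W.cls D) := ⟨_, rfl⟩
  obtain ⟨δ', hδ'd⟩ : ∃ δ' : ℝ, δ' = W.deg (W.cls c.H) (W.cls D') := ⟨_, rfl⟩
  rw [← hδd] at hpos
  rw [← hδd, ← hδ'd] at hlt
  obtain ⟨m, hm⟩ : ∃ m : ℝ, m = (W.dimPred : ℝ) + 1 := ⟨_, rfl⟩
  have hm0 : 0 < m := by rw [hm]; positivity
  rw [← hm] at hlt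
  obtain ⟨r, hr⟩ : ∃ r : ℝ, r = 1 - δ' / δ := ⟨_, rfl⟩
  rw [← hr] at hlt
  -- the small number
  obtain ⟨ε, hε⟩ : ∃ ε : ℝ, ε = (r - ρ * m) / (2 + 2 * ρ) := ⟨_, rfl⟩
  have hε0 : 0 < ε := by
    rw [hε]
    exact div_pos (by linarith) (by positivity)
  have hε2 : ρ * (m + 2 * ε) ≤ r - 2 * ε := by
    have : ε * (2 + 2 * ρ) = r - ρ * m := by
      rw [hε]
      field_simp
    nlinarith
  obtain ⟨Z, hZ, C₁, hC₁, hup⟩ := upper_one E c hD hu (by rw [← hδd]; exact hpos) hε0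
  rw [← hδd, ← hm] at hup
  -- the lower bound for u'
  obtain ⟨C₂, hlow⟩ := lower_one c hD' hu' (ε := ε * δ / (2 * c.N)) (by positivity)
  -- the norms
  obtain ⟨C₃, hn1⟩ := c.norm D u hu
  obtain ⟨C₄, hn2⟩ := c.norm D' u' hu'
  rw [← hδd] at hn1
  rw [← hδ'd] at hn2
  have hp1 : 0 ≤ 2 * c.N * |C₂| / (ε * δ) := by positivity
  have hp2 : 0 ≤ (|C₃| + |C₄|) / (ε * δ) := by positivity
  refine ⟨Z, hZ, C₁ + 2 * c.N * |C₂| / (ε * δ) + (|C₃| + |C₄|) / (ε * δ), ε * (δ / c.N),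
    by positivity, by positivity, fun t ht htZ => ?_⟩
  obtain ⟨h, hh⟩ : ∃ h : ℝ, h = c.h t := ⟨_, rfl⟩
  rw [← hh] at ht ⊢
  have hh0 : 0 < h := by linarith
  have hq : 0 < δ / c.N * h := by positivity
  have hsum : ∑ y ∈ c.fib t, (c.mult y : ℝ) = c.N := by exact_mod_cast c.sum_mult t
  have hx : ∀ y ∈ c.fib t, u y - u' y ≤ (m + 2 * ε) * (δ / c.N * h) := by
    intro y hy
    have hφ : c.φ y = t := (c.mem_fib _ _).1 hy
    have h1 := hup y (htZ y hy) (by rw [hφ, ← hh]; linarith)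
    have h2 := hlow y
    rw [hφ, ← hh] at h1 h2
    have h3 : |C₂| ≤ ε * δ / (2 * c.N) * h := by
      have h4 : 2 * c.N * |C₂| / (ε * δ) ≤ h := by linarith
      rw [div_le_iff₀ (by positivity)] at h4
      rw [div_mul_eq_mul_div, le_div_iff₀ (by positivity)]
      linarith
    have h4 := le_abs_self C₂
    have h5 : (m + 2 * ε) * (δ / c.N * h) = (m + ε) * (δ / c.N * h) + (ε * δ / (2 * c.N) * h +
        ε * δ / (2 * c.N) * h) := by
      field_simp
      ring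
    linarith
  have hsum2 : (1 - (δ' / δ + ε)) * (c.N * (δ / c.N * h)) ≤
      ∑ y ∈ c.fib t, (c.mult y : ℝ) * (u y - u' y) := by
    have h1 := (abs_le.1 (hn1 t)).1
    have h2 := (abs_le.1 (hn2 t)).2
    rw [← hh] at h1 h2
    have h3 : ∑ y ∈ c.fib t, (c.mult y : ℝ) * (u y - u' y) =
        ∑ y ∈ c.fib t, (c.mult y : ℝ) * u y - ∑ y ∈ c.fib t, (c.mult y : ℝ) * u' y := by
      rw [← Finset.sum_sub_distrib]
      exact Finset.sum_congr rfl fun y _ => by ring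
    have h4 : (1 - (δ' / δ + ε)) * (c.N * (δ / c.N * h)) = δ * h - δ' * h - ε * δ * h := by
      field_simp
      ring
    have h5 : |C₃| + |C₄| ≤ ε * δ * h := by
      have h6 : (|C₃| + |C₄|) / (ε * δ) ≤ h := by linarith
      rw [div_le_iff₀ (by positivity)] at h6
      linarith
    have h6 := le_abs_self C₃
    have h7 := le_abs_self C₄
    rw [h3, h4]
    linarith
  have h1 := count_large (c.fib t) (fun y => (c.mult y : ℝ)) (fun y => u y - u' y)
    (fun y _ => Nat.cast_nonneg _) (N := c.N) (q := δ / c.N * h) (β := m + 2 * ε)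
    (γ := δ' / δ + ε) (δ := ε) hsum hq hε0.le (by positivity) hx hsum2
  refine ⟨{y ∈ c.fib t | ε * (δ / c.N * h) ≤ u y - u' y}, Finset.filter_subset _ _,
    fun w hw => ?_, ?_⟩
  · have := (Finset.mem_filter.1 hw).2
    rw [← mul_assoc] at this
    exact this
  · refine le_trans ?_ h1
    rw [le_div_iff₀ (by positivity)]
    have h2 : (1 - (δ' / δ + ε) - ε) = r - 2 * ε := by rw [hr]; ring
    rw [h2]
    calc ρ * c.N * (m + 2 * ε) = ρ * (m + 2 * ε) * c.N := by ring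
      _ ≤ (r - 2 * ε) * c.N := mul_le_mul_of_nonneg_right hε2 hN.le

end Pool.Agent.Q8.ZA
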