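import Mathlib
import Pool.Agent.Q8.ZA.ModShare

/-!
Fibres and the Hodge locus of a family of products of elliptic curves.
-/

set_option autoImplicit false

open Filter Topology

namespace Pool.Agent.Q8.ZA

open Pool.Agent.Q8.KS

variable {G : Type} [Group G]

lemma closed_iUnion {W : Variety G} (E : Effective W) {ι : Type} [Fintype ι]
    (Z : ι → Set W.Pt) (hZ : ∀ i, Z i ∈ E.closed) : (⋃ i, Z i) ∈ E.closed := by
  classical
  have h : ∀ s : Finset ι, (⋃ i ∈ s, Z i) ∈ E.closed := by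
    intro s
    induction s using Finset.induction_on with
    | empty => simpa using E.empty_mem
    | insert a s _ ih =>
      rw [Finset.set_biUnion_insert]
      exact E.union_mem _ (hZ a) _ ih
  simpa using h Finset.univ

/-- **The points of a fibre outside the Hodge locus.** -/
theorem modular_share {W : Variety G} (E : Effective W) {Y : ModularCurve G} {n : ℕ}
    (M : ModularMap W Y n) (c : Cover W) (hnef : ∀ i, W.cls (M.D i) ∈ W.Nef)
    (hpos : ∀ i, 0 < W.deg (W.cls c.H) (W.cls (M.D i)))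
    (hne : ∀ i k, i ≠ k →
      W.deg (W.cls c.H) (W.cls (M.D i)) ≠ W.deg (W.cls c.H) (W.cls (M.D k)))
    {ρ : ℝ} (hρ : 0 < ρ) (hρ1 : ρ * ((W.dimPred : ℝ) + 1) < 1)
    (hρ2 : ∀ i k, W.deg (W.cls c.H) (W.cls (M.D k)) < W.deg (W.cls c.H) (W.cls (M.D i)) →
      ρ * ((W.dimPred : ℝ) + 1) <
        1 - W.deg (W.cls c.H) (W.cls (M.D k)) / W.deg (W.cls c.H) (W.cls (M.D i))) :
    ∃ Z ∈ E.closed, ∀ e : ℕ, ∃ C : ℝ,
      (∀ t : c.P, C ≤ c.h t → (MulAction.orbit G t).ncard ≤ e → (∀ y ∈ c.fib t, y ∉ Z) →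
        (∀ i, AtLeast c t (ρ * c.N) (fun w => w ∈ M.U → ¬ Y.CM (M.x w i))) ∧
        ∀ i k, i ≠ k →
          AtLeast c t (ρ * c.N) (fun w => w ∈ M.U → ¬ Y.Isogenous (M.x w i) (M.x w k))) ∧
      {w : W.Pt | (w ∈ M.U ∧ (1 - ρ) * c.N < c.relDeg w ∧ (MulAction.orbit G (c.φ w)).ncard ≤ e ∧
        ∀ y ∈ c.fib (c.φ w), y ∉ Z) ∧ M.InProperSpecial w}.Finite := by
  classical
  have hN : (0 : ℝ) < c.N := by exact_mod_cast c.N_pos
  obtain ⟨δ, hδ⟩ : ∃ δ : Fin n → ℝ, δ = fun i => W.deg (W.cls c.H) (W.cls (M.D i)) := ⟨_, rfl⟩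
  have hδi : ∀ i, W.deg (W.cls c.H) (W.cls (M.D i)) = δ i := fun i => by rw [hδ]
  simp only [hδi] at hpos hne hρ2
  -- the pairs
  have hpair : ∀ p : Fin n × Fin n, ∃ (Z : Set W.Pt) (C ε : ℝ), Z ∈ E.closed ∧ 0 < C ∧ 0 < ε ∧
      (δ p.2 < δ p.1 → ∀ t : c.P, C ≤ c.h t → (∀ y ∈ c.fib t, y ∉ Z) →
        AtLeast c t (ρ * c.N) (fun w => ε * c.h t ≤ M.height p.1 w - M.height p.2 w)) := by
    rintro ⟨i, k⟩
    by_cases h : δ k < δ i
    · obtain ⟨Z, hZ, C, ε, hC, hε, hh⟩ := share_diff E c (hnef i) (hnef k) (M.isHeight i)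
        (M.isHeight k) hρ (by rw [hδi]; exact hpos i) (by rw [hδi, hδi]; exact hρ2 i k h)
      exact ⟨Z, C, ε, hZ, hC, hε, fun _ => hh⟩
    · exact ⟨∅, 1, 1, E.empty_mem, one_pos, one_pos, fun h' => absurd h' h⟩
  choose Zp Cp εp hZp hCp hεp hp using hpair
  -- the single coordinates
  have hzero : W.IsHeight (0 : W.Pic) (0 : W.Pt → ℝ) := by
    show W.height 0 = (bdd W.Pt).mkQ 0
    rw [map_zero, map_zero]
  have hone : ∀ i : Fin n, ∃ (Z : Set W.Pt) (C ε : ℝ), Z ∈ E.closed ∧ 0 < C ∧ 0 < ε ∧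
      ∀ t : c.P, C ≤ c.h t → (∀ y ∈ c.fib t, y ∉ Z) →
        AtLeast c t (ρ * c.N) (fun w => ε * c.h t ≤ M.height i w) := by
    intro i
    obtain ⟨Z, hZ, C, ε, hC, hε, hh⟩ := share_diff E c (hnef i) (D' := 0) (u' := 0)
      (by rw [map_zero]; exact W.nef_cone.zero) (M.isHeight i) hzero hρ
      (by rw [hδi]; exact hpos i)
      (by rw [map_zero, map_zero, zero_div, sub_zero]; exact hρ1)
    refine ⟨Z, C, ε, hZ, hC, hε, fun t ht htZ => ?_⟩
    obtain ⟨S, hS, hSP, hSp⟩ := hh t ht htZ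
    refine ⟨S, hS, fun w hw => ?_, hSp⟩
    have := hSP w hw
    simpa using this
  choose Zo Co εo hZo hCo hεo ho using hone
  -- the upper bounds
  have hupper : ∀ i : Fin n, ∃ (Z : Set W.Pt) (C : ℝ), Z ∈ E.closed ∧ 0 < C ∧
      ∀ y, y ∉ Z → C ≤ c.h (c.φ y) → M.height i y ≤
        ((W.dimPred : ℝ) + 1 + 1) * (δ i / c.N * c.h (c.φ y)) := by
    intro i
    obtain ⟨Z, hZ, C, hC, h⟩ := upper_one E c (hnef i) (M.isHeight i)
      (by rw [hδi]; exact hpos i) one_pos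
    rw [hδi] at h
    exact ⟨Z, C, hZ, hC, h⟩
  choose Zu Cu hZu hCu hu using hupper
  refine ⟨(⋃ p, Zp p) ∪ ((⋃ i, Zo i) ∪ ⋃ i, Zu i),
    E.union_mem _ (closed_iUnion E Zp hZp) _ (E.union_mem _ (closed_iUnion E Zo hZo) _
      (closed_iUnion E Zu hZu)), fun e => ?_⟩
  have hZ1 : ∀ (y : W.Pt), y ∉ (⋃ p, Zp p) ∪ ((⋃ i, Zo i) ∪ ⋃ i, Zu i) →
      (∀ p, y ∉ Zp p) ∧ (∀ i, y ∉ Zo i) ∧ ∀ i, y ∉ Zu i := by
    intro y hy
    refine ⟨fun p hp => hy (Or.inl (Set.mem_iUnion.2 ⟨p, hp⟩)),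
      fun i hi => hy (Or.inr (Or.inl (Set.mem_iUnion.2 ⟨i, hi⟩))),
      fun i hi => hy (Or.inr (Or.inr (Set.mem_iUnion.2 ⟨i, hi⟩)))⟩
  obtain ⟨B1, hB1⟩ := Y.isogeny (e * c.N)
  obtain ⟨B2, hB2⟩ := Y.cm (e * c.N)
  obtain ⟨A, hA⟩ : ∃ A : ℝ, A = ∑ i, ((W.dimPred : ℝ) + 1 + 1) * (δ i / c.N) := ⟨_, rfl⟩
  have hA0 : ∀ i, ((W.dimPred : ℝ) + 1 + 1) * (δ i / c.N) ≤ A := by
    intro i
    rw [hA]
    exact Finset.single_le_sum (f := fun i => ((W.dimPred : ℝ) + 1 + 1) * (δ i / c.N))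
      (fun k _ => by have := hpos k; positivity) (Finset.mem_univ i)
  have hlog := fun p => log_small (εp p) B1 A (hεp p)
  choose X hX using hlog
  obtain ⟨C, hC⟩ : ∃ C : ℝ, C = 1 + ∑ p, (Cp p + |X p|) + ∑ i, (Co i + Cu i) +
      ∑ i, ((|B2| + 1) / εo i) := ⟨_, rfl⟩
  have hs1 : ∀ p, Cp p + |X p| ≤ ∑ p, (Cp p + |X p|) := fun p =>
    Finset.single_le_sum (f := fun p => Cp p + |X p|)
      (fun q _ => add_nonneg (hCp q).le (abs_nonneg _)) (Finset.mem_univ p)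
  have hs2 : ∀ i, Co i + Cu i ≤ ∑ i, (Co i + Cu i) := fun i =>
    Finset.single_le_sum (f := fun i => Co i + Cu i)
      (fun q _ => add_nonneg (hCo q).le (hCu q).le) (Finset.mem_univ i)
  have hs3 : ∀ i, (|B2| + 1) / εo i ≤ ∑ i, ((|B2| + 1) / εo i) := fun i =>
    Finset.single_le_sum (f := fun i => (|B2| + 1) / εo i)
      (fun q _ => by have := hεo q; positivity) (Finset.mem_univ i)
  have hs10 : 0 ≤ ∑ p, (Cp p + |X p|) :=
    Finset.sum_nonneg fun q _ => add_nonneg (hCp q).le (abs_nonneg _)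
  have hs20 : 0 ≤ ∑ i, (Co i + Cu i) :=
    Finset.sum_nonneg fun q _ => add_nonneg (hCo q).le (hCu q).le
  have hs30 : 0 ≤ ∑ i, ((|B2| + 1) / εo i) :=
    Finset.sum_nonneg fun q _ => by have := hεo q; positivity
  have hCle : ∀ h, C ≤ h → 1 ≤ h ∧ (∀ p, Cp p ≤ h) ∧ (∀ p, X p ≤ h) ∧ (∀ i, Co i ≤ h) ∧
      (∀ i, Cu i ≤ h) ∧ ∀ i, (|B2| + 1) / εo i ≤ h := by
    intro h hh
    refine ⟨by linarith, fun p => ?_, fun p => ?_, fun i => ?_, fun i => ?_, fun i => ?_⟩
    · have := hs1 p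
      have := abs_nonneg (X p)
      linarith
    · have := hs1 p
      have := le_abs_self (X p)
      have := hCp p
      linarith
    · have := hs2 i
      have := hCu i
      linarith
    · have := hs2 i
      have := hCo i
      linarith
    · have := hs3 i
      linarith
  -- isogenous coordinates have similar heights
  have hiso : ∀ w ∈ M.U, (MulAction.orbit G (c.φ w)).ncard ≤ e →
      w ∉ (⋃ p, Zp p) ∪ ((⋃ i, Zo i) ∪ ⋃ i, Zu i) → C ≤ c.h (c.φ w) → ∀ i k,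
        Y.Isogenous (M.x w i) (M.x w k) →
          |M.height i w - M.height k w| ≤
            |B1| * (1 + Real.log (max 1 (A * (c.h (c.φ w) + 1)))) := by
    intro w hwU hwe hwZ hwC i k hik
    obtain ⟨hofin, hodeg⟩ := deg_point c w e hwe
    have hodeg' : ∀ i, (MulAction.orbit G (M.x w i)).ncard ≤ e * c.N := by
      intro i
      have h1 : MulAction.orbit G (M.x w i) ⊆ (fun y => M.x y i) '' MulAction.orbit G w := by
        rintro _ ⟨g, rfl⟩
        exact ⟨g • w, ⟨g, rfl⟩, M.x_smul g w hwU i⟩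
      have h2 := Set.ncard_le_ncard h1 (hofin.image _)
      exact (h2.trans (Set.ncard_image_le hofin)).trans hodeg
    obtain ⟨hh1, _, _, _, hcu, _⟩ := hCle _ hwC
    obtain ⟨_, _, hzu⟩ := hZ1 w hwZ
    have h1 := hB1 _ _ hik (hodeg' i) (hodeg' k)
    rw [← M.height_eq w hwU i, ← M.height_eq w hwU k] at h1
    refine h1.trans ?_
    have h2 : M.height i w ≤ A * (c.h (c.φ w) + 1) := by
      refine (hu i w (hzu i) (hcu i)).trans ?_
      have h3 := hA0 i
      have h4 : 0 ≤ ((W.dimPred : ℝ) + 1 + 1) * (δ i / c.N) := by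
        have := hpos i
        positivity
      calc ((W.dimPred : ℝ) + 1 + 1) * (δ i / c.N * c.h (c.φ w))
          = ((W.dimPred : ℝ) + 1 + 1) * (δ i / c.N) * c.h (c.φ w) := by ring
        _ ≤ A * (c.h (c.φ w) + 1) := by
            refine mul_le_mul h3 (by linarith) (by linarith) (by linarith)
    have h3 : Real.log (max 1 (M.height i w)) ≤ Real.log (max 1 (A * (c.h (c.φ w) + 1))) :=
      Real.log_le_log (lt_of_lt_of_le one_pos (le_max_left _ _)) (max_le_max le_rfl h2)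
    have h4 : 0 ≤ Real.log (max 1 (M.height i w)) := Real.log_nonneg (le_max_left _ _)
    calc B1 * (1 + Real.log (max 1 (M.height i w)))
        ≤ |B1| * (1 + Real.log (max 1 (M.height i w))) :=
          mul_le_mul_of_nonneg_right (le_abs_self _) (by linarith)
      _ ≤ |B1| * (1 + Real.log (max 1 (A * (c.h (c.φ w) + 1)))) :=
          mul_le_mul_of_nonneg_left (by linarith) (abs_nonneg _)
  have hA1 : 0 ≤ A := by
    rw [hA]
    exact Finset.sum_nonneg fun k _ => by have := hpos k; positivity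
  -- a difference of heights excludes an isogeny
  have hno : ∀ w ∈ M.U, (MulAction.orbit G (c.φ w)).ncard ≤ e →
      w ∉ (⋃ p, Zp p) ∪ ((⋃ i, Zo i) ∪ ⋃ i, Zu i) → C ≤ c.h (c.φ w) → ∀ i k,
        εp (i, k) * c.h (c.φ w) ≤ M.height i w - M.height k w →
          ¬ Y.Isogenous (M.x w i) (M.x w k) ∧ ¬ Y.Isogenous (M.x w k) (M.x w i) := by
    intro w hwU hwe hwZ hwC i k hik
    obtain ⟨_, _, hX', _, _, _⟩ := hCle _ hwC
    have h1 := hX (i, k) _ (hX' (i, k))
    constructor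
    · intro h
      have h2 := hiso w hwU hwe hwZ hwC i k h
      have h3 := le_abs_self (M.height i w - M.height k w)
      linarith
    · intro h
      have h2 := hiso w hwU hwe hwZ hwC k i h
      rw [abs_sub_comm] at h2
      have h3 := le_abs_self (M.height i w - M.height k w)
      linarith
  -- a large height excludes complex multiplication
  have hnocm : ∀ w ∈ M.U, (MulAction.orbit G (c.φ w)).ncard ≤ e → C ≤ c.h (c.φ w) → ∀ i,
      εo i * c.h (c.φ w) ≤ M.height i w → ¬ Y.CM (M.x w i) := by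
    intro w hwU hwe hwC i hi hcm
    obtain ⟨hofin, hodeg⟩ := deg_point c w e hwe
    have hodeg' : (MulAction.orbit G (M.x w i)).ncard ≤ e * c.N := by
      have h1 : MulAction.orbit G (M.x w i) ⊆ (fun y => M.x y i) '' MulAction.orbit G w := by
        rintro _ ⟨g, rfl⟩
        exact ⟨g • w, ⟨g, rfl⟩, M.x_smul g w hwU i⟩
      have h2 := Set.ncard_le_ncard h1 (hofin.image _)
      exact (h2.trans (Set.ncard_image_le hofin)).trans hodeg
    have h1 := hB2 _ hcm hodeg'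
    rw [← M.height_eq w hwU i] at h1
    obtain ⟨_, _, _, _, _, hb⟩ := hCle _ hwC
    have h2 := hb i
    rw [div_le_iff₀ (hεo i)] at h2
    have h3 := le_abs_self B2
    linarith
  refine ⟨C, fun t ht hte htZ => ⟨fun i => ?_, fun i k hik => ?_⟩, ?_⟩
  · obtain ⟨_, _, _, hco, _, _⟩ := hCle _ ht
    obtain ⟨S, hS, hSP, hSp⟩ := ho i t (hco i) (fun y hy => (hZ1 y (htZ y hy)).2.1 i)
    refine ⟨S, hS, fun w hw hwU => ?_, hSp⟩
    have hφ : c.φ w = t := (c.mem_fib _ _).1 (hS hw)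
    refine hnocm w hwU (by rw [hφ]; exact hte) (by rw [hφ]; exact ht) i ?_
    rw [hφ]
    exact hSP w hw
  · obtain ⟨_, hcp, _, _, _, _⟩ := hCle _ ht
    rcases lt_or_gt_of_ne (hne i k hik) with hlt | hlt
    · obtain ⟨S, hS, hSP, hSp⟩ := hp (k, i) hlt t (hcp (k, i))
        (fun y hy => (hZ1 y (htZ y hy)).1 (k, i))
      refine ⟨S, hS, fun w hw hwU => ?_, hSp⟩
      have hφ : c.φ w = t := (c.mem_fib _ _).1 (hS hw)
      refine (hno w hwU (by rw [hφ]; exact hte) (htZ w (hS hw)) (by rw [hφ]; exact ht) k i ?_).2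
      rw [hφ]
      exact hSP w hw
    · obtain ⟨S, hS, hSP, hSp⟩ := hp (i, k) hlt t (hcp (i, k))
        (fun y hy => (hZ1 y (htZ y hy)).1 (i, k))
      refine ⟨S, hS, fun w hw hwU => ?_, hSp⟩
      have hφ : c.φ w = t := (c.mem_fib _ _).1 (hS hw)
      refine (hno w hwU (by rw [hφ]; exact hte) (htZ w (hS hw)) (by rw [hφ]; exact ht) i k ?_).1
      rw [hφ]
      exact hSP w hw
  · have hbad : ∀ w ∈ {w : W.Pt | (w ∈ M.U ∧ (1 - ρ) * c.N < c.relDeg w ∧
        (MulAction.orbit G (c.φ w)).ncard ≤ e ∧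
          ∀ y ∈ c.fib (c.φ w), y ∉ (⋃ p, Zp p) ∪ ((⋃ i, Zo i) ∪ ⋃ i, Zu i)) ∧
            M.InProperSpecial w}, c.h (c.φ w) < C := by
      rintro w ⟨⟨hwU, hw, hwe, hwZ⟩, hspec⟩
      by_contra hlt
      have hwC := not_lt.1 hlt
      obtain ⟨_, hcp, _, hco, _, _⟩ := hCle _ hwC
      have hwZw := hwZ w ((c.mem_fib _ _).2 rfl)
      have hwN : (c.N : ℝ) - ρ * c.N < c.relDeg w := by
        refine lt_of_le_of_lt (le_of_eq ?_) hw
        ring
      have hgo : ∀ i, εo i * c.h (c.φ w) ≤ M.height i w := fun i =>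
        rel_of_share c (fun y => εo i * c.h (c.φ w) ≤ M.height i y)
          (fun g _ y hy => by
            show _ ≤ M.height i (g • y)
            rw [M.height_galois]
            exact hy)
          (ho i _ (hco i) (fun y hy => (hZ1 y (hwZ y hy)).2.1 i)) hwN
      have hgp : ∀ i k, δ k < δ i →
          εp (i, k) * c.h (c.φ w) ≤ M.height i w - M.height k w := fun i k hik =>
        rel_of_share c (fun y => εp (i, k) * c.h (c.φ w) ≤ M.height i y - M.height k y)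
          (fun g _ y hy => by
            show _ ≤ M.height i (g • y) - M.height k (g • y)
            rw [M.height_galois, M.height_galois]
            exact hy)
          (hp (i, k) hik _ (hcp (i, k)) (fun y hy => (hZ1 y (hwZ y hy)).1 (i, k))) hwN
      rcases hspec with ⟨i, hcm⟩ | ⟨i, k, hik, hiso'⟩
      · exact hnocm w hwU hwe hwC i (hgo i) hcm
      · rcases lt_or_gt_of_ne (hne i k hik) with hlt' | hlt'
        · exact (hno w hwU hwe hwZw hwC k i (hgp k i hlt')).2 hiso'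
        · exact (hno w hwU hwe hwZw hwC i k (hgp i k hlt')).1 hiso'
    have hfin := finite_of_height c _ _ hbad e
    refine hfin.subset ?_
    intro w hw
    exact ⟨hw, hw.1.2.2.1⟩

end Pool.Agent.Q8.ZA
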