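import Mathlib
import Pool.Agent.Q8.ZA.ModShare2

set_option autoImplicit false

namespace Pool.Agent.Q8.ZA

open Pool.Agent.Q8.KS

variable {G : Type} [Group G]

/-- The degree `D_i ⋅ H^(m-1)` of the `i`-th coordinate, `H = φ^* O(1)`. -/
noncomputable def ModularMap.degree {W : Variety G} {Y : ModularCurve G} {n : ℕ}
    (M : ModularMap W Y n) (φ : Cover W) (i : Fin n) : ℝ :=
  W.deg (W.cls φ.H) (W.cls (M.D i))

/-- The degrees of the coordinates are positive and different from each other; and `ρ > 0` is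
smaller than `1 / m` and than `(1 - δ_k / δ_i) / m` whenever `δ_k < δ_i`, `m = dim W`. -/
def Separated {W : Variety G} {Y : ModularCurve G} {n : ℕ} (M : ModularMap W Y n) (φ : Cover W)
    (ρ : ℝ) : Prop :=
  (∀ i, 0 < M.degree φ i) ∧ (∀ i k, i ≠ k → M.degree φ i ≠ M.degree φ k) ∧ 0 < ρ ∧
    ρ * ((W.dimPred : ℝ) + 1) < 1 ∧
    ∀ i k, M.degree φ k < M.degree φ i →
      ρ * ((W.dimPred : ℝ) + 1) < 1 - M.degree φ k / M.degree φ i

/-- At least `ρ N` of the points of the fibre over `t` are not in `U` or have no complex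
multiplication at the place `i`, for each `i`; and at least `ρ N` are not in `U` or have coordinates
`i` and `k` which are not isogenous, for each pair `i ≠ k`. -/
def ShareOff {W : Variety G} {Y : ModularCurve G} {n : ℕ} (M : ModularMap W Y n) (φ : Cover W)
    (ρ : ℝ) (t : φ.P) : Prop :=
  (∀ i, AtLeast φ t (ρ * φ.N) (fun w => w ∈ M.U → ¬ Y.CM (M.x w i))) ∧
    ∀ i k, i ≠ k → AtLeast φ t (ρ * φ.N) (fun w => w ∈ M.U → ¬ Y.Isogenous (M.x w i) (M.x w k))

/-- The points `w` of `U` in a proper special subvariety with `[K(w) : K(φ(w))] > (1 - ρ) N`,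
`[K(φ(w)) : K] ≤ e` and `φ(w)` not in `φ(Z)`. -/
def specialPoints {W : Variety G} {Y : ModularCurve G} {n : ℕ} (M : ModularMap W Y n)
    (φ : Cover W) (ρ : ℝ) (Z : Set W.Pt) (e : ℕ) : Set W.Pt :=
  {w | (w ∈ M.U ∧ (1 - ρ) * φ.N < φ.relDeg w ∧ (MulAction.orbit G (φ.φ w)).ncard ≤ e ∧
    ∀ y ∈ φ.fib (φ.φ w), y ∉ Z) ∧ M.InProperSpecial w}

/-- **The points of a fibre outside the Hodge locus.** -/
theorem share_off {W : Variety G} (E : Effective W) {Y : ModularCurve G} {n : ℕ}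
    (M : ModularMap W Y n) (φ : Cover W) (hnef : ∀ i, W.cls (M.D i) ∈ W.Nef) {ρ : ℝ}
    (h : Separated M φ ρ) :
    ∃ Z ∈ E.closed, ∀ e : ℕ, (∃ C : ℝ, ∀ t : φ.P, C ≤ φ.h t →
      (MulAction.orbit G t).ncard ≤ e → (∀ y ∈ φ.fib t, y ∉ Z) → ShareOff M φ ρ t) ∧
        (specialPoints M φ ρ Z e).Finite := by
  obtain ⟨hpos, hne, hρ, hρ1, hρ2⟩ := h
  obtain ⟨Z, hZ, hall⟩ := modular_share E M φ hnef hpos hne hρ hρ1 hρ2
  refine ⟨Z, hZ, fun e => ?_⟩
  obtain ⟨C, h1, h2⟩ := hall e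
  exact ⟨⟨C, h1⟩, h2⟩

end Pool.Agent.Q8.ZA
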